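import Mathlib
import Pool.Agent.TH827.GE.St

/-!
The strip for curves with rational points of order two: the lines through the origin on which the
cubic form vanishes.
-/

set_option autoImplicit false

namespace Pool.Agent.TH827.GF

open Finset Pool.Agent.TH562.TW Pool.Agent.TH562.R2 Pool.Agent.TH827.GE

/-- a zero of the cubic form -/
lemma gI_root {A B a b : ℤ} (h : gI A B 0 a b = 0) (hb : b ≠ 0) :
    ∃ ρ : ℤ, a = ρ * b ∧ ρ ^ 3 + A * ρ + B = 0 := by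
  have hb' : (b : ℚ) ≠ 0 := by exact_mod_cast hb
  have h1 : ((gI A B 0 a b : ℤ) : ℚ) = 0 := by rw [h]; norm_num
  unfold gI at h1
  push_cast at h1
  set P : Polynomial ℤ := Polynomial.X ^ 3 + (Polynomial.C A * Polynomial.X + Polynomial.C B)
    with hP
  have hmonic : P.Monic := by
    rw [hP]
    monicity!
  have hr : Polynomial.aeval ((a : ℚ) / b) P = 0 := by
    rw [hP]
    simp only [map_add, map_mul, map_pow, Polynomial.aeval_X, Polynomial.aeval_C,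
      algebraMap_int_eq, Int.coe_castRingHom]
    field_simp
    linear_combination h1
  obtain ⟨ρ, hρ⟩ := isInteger_of_is_root_of_monic hmonic hr
  have hρ' : (ρ : ℚ) = a / b := by simpa using hρ
  have e1 : (ρ : ℚ) * b = a := by rw [hρ']; field_simp
  have e1' : ρ * b = a := by exact_mod_cast e1
  refine ⟨ρ, e1'.symm, ?_⟩
  unfold gI at h
  rw [← e1'] at h
  have h2 : b ^ 3 * (ρ ^ 3 + A * ρ + B) = 0 := by
    push_cast at h
    linear_combination h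
  rcases mul_eq_zero.1 h2 with h3 | h3
  · exact absurd (pow_eq_zero_iff (by norm_num) |>.1 h3) hb
  · exact h3

/-- the other factor is prime to `p` -/
lemma cop_root {A B ρ s v : ℤ} {p : ℕ} (hp : p.Prime) (hρ : ρ ^ 3 + A * ρ + B = 0)
    (hdisc : ¬ (p : ℤ) ∣ 4 * A ^ 3 + 27 * B ^ 2) (hv : ¬ (p : ℤ) ∣ v)
    (hg : ((p ^ 2 : ℕ) : ℤ) ∣ gI A B 0 s v) (hn : ¬ ((p ^ 2 : ℕ) : ℤ) ∣ s - ρ * v) :
    ¬ (p : ℤ) ∣ s - ρ * v := by
  intro hd
  have hpZ : Prime (p : ℤ) := Nat.prime_iff_prime_int.1 hp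
  have e : gI A B 0 s v = (s - ρ * v) * (s ^ 2 + ρ * s * v + (ρ ^ 2 + A) * v ^ 2) := by
    unfold gI
    push_cast
    linear_combination (v ^ 3) * hρ
  have hB : B = -(ρ ^ 3 + A * ρ) := by linarith
  have hcop : IsCoprime ((p ^ 2 : ℕ) : ℤ) (s ^ 2 + ρ * s * v + (ρ ^ 2 + A) * v ^ 2) := by
    push_cast
    apply IsCoprime.pow_left
    rw [Prime.coprime_iff_not_dvd hpZ]
    intro h1
    have h2 : (p : ℤ) ∣ (3 * ρ ^ 2 + A) * v ^ 2 := by
      have e2 : (3 * ρ ^ 2 + A) * v ^ 2 = (s ^ 2 + ρ * s * v + (ρ ^ 2 + A) * v ^ 2) -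
          (s - ρ * v) * (s + 2 * ρ * v) := by ring
      rw [e2]
      exact dvd_sub h1 (Dvd.dvd.mul_right hd _)
    rcases hpZ.dvd_or_dvd h2 with h3 | h3
    · apply hdisc
      have e3 : 4 * A ^ 3 + 27 * B ^ 2 = (3 * ρ ^ 2 + A) * ((3 * ρ ^ 2 + A) *
          (3 * ρ ^ 2 + 4 * A)) := by rw [hB]; ring
      rw [e3]
      exact Dvd.dvd.mul_right h3 _
    · exact hv (hpZ.dvd_of_dvd_pow h3)
  rw [e] at hg
  exact hn (hcop.dvd_of_dvd_mul_right hg)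

/-- one prime of the middle range -/
lemma d4r {A B : ℤ} {Q a : ℕ} {f : ℕ → ℕ} {l0 I T S : ℕ} {Rt : Finset ℤ}
    (hRt : ∀ ρ : ℤ, ρ ^ 3 + A * ρ + B = 0 → ρ ∈ Rt) (hQ : 0 < Q)
    (hf : ∀ l l' : ℕ, l0 ≤ l → l ≤ l' → l' < l0 + T → f l' ≤ f l)
    (hS : ∀ l, l0 ≤ l → l < l0 + T → f l ≤ S)
    {p : ℕ} (hp : p.Prime) (hpQ : ¬ p ∣ Q) (hdisc : ¬ (p : ℤ) ∣ 4 * A ^ 3 + 27 * B ^ 2)
    {F : Finset (ℕ × ℕ)} (hF : F ⊆ Bx 0 l0 I T)
    (hG : ∀ x ∈ F, (((p ^ 2 : ℕ) : ℤ) ∣ GZ A B 0 (sx Q f x) (vx Q a x) ∧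
      ¬ p ∣ vx Q a x) ∧ ∀ ρ ∈ Rt, ¬ ((p ^ 2 : ℕ) : ℤ) ∣
        ((sx Q f x : ℕ) : ℤ) - ρ * ((vx Q a x : ℕ) : ℤ))
    {Δ : ℝ} (hΔ : 0 < Δ) (hpΔ : Cg A B 0 * (Q * Δ) ^ 3 < (p : ℝ) ^ 2)
    (hΔp : Δ ≤ (p : ℝ) ^ 2) :
    (F.card : ℝ) ≤ 3 * ((4 * (T + S + I) / Δ + 1) * (2 * I / Δ + 2)) := by
  refine card_color (m := 0) hp hdisc F (sx Q f) (vx Q a) (fun x hx => (hG x hx).1) _ ?_
  intro T' hT' hcl
  refine strip_card hf hS (hT'.trans hF) hΔ ?_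
  intro x hx y hy hne
  by_contra hcon
  push Not at hcon
  obtain ⟨c1, c2⟩ := hcon
  have hc := hcl x hx y hy
  obtain ⟨⟨hg, hv⟩, hroots⟩ := hG x (hT' hx)
  have hQ' : (0 : ℝ) < Q := by exact_mod_cast hQ
  have hvZ : ¬ (p : ℤ) ∣ ((vx Q a x : ℕ) : ℤ) := fun hh => hv (Int.natCast_dvd_natCast.1 hh)
  set ix : ℕ := f x.2 + x.1 with hix
  set iy : ℕ := f y.2 + y.1 with hiy
  have hcc : ((p ^ 2 : ℕ) : ℤ) ∣ ((sx Q f x : ℕ) : ℤ) * ((Q : ℤ) * ((y.2 : ℤ) - x.2)) -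
      (Q : ℤ) * ((iy : ℤ) - ix) * ((vx Q a x : ℕ) : ℤ) := by
    have e : ((sx Q f x : ℕ) : ℤ) * ((Q : ℤ) * ((y.2 : ℤ) - x.2)) -
        (Q : ℤ) * ((iy : ℤ) - ix) * ((vx Q a x : ℕ) : ℤ) =
        ((sx Q f x : ℕ) : ℤ) * ((vx Q a y : ℕ) : ℤ) -
          ((sx Q f y : ℕ) : ℤ) * ((vx Q a x : ℕ) : ℤ) := by
      unfold sx vx
      rw [← hix, ← hiy]
      push_cast; ring
    rw [e]; exact hc
  have hd := dvd_gI (A := A) (B := B) (m := 0) hp
    (s := ((sx Q f x : ℕ) : ℤ)) (v := ((vx Q a x : ℕ) : ℤ))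
    (a := (Q : ℤ) * ((iy : ℤ) - ix)) (b := (Q : ℤ) * ((y.2 : ℤ) - x.2)) hvZ
    (by rw [← GZ_eq]; exact hg) hcc
  have hQZ : (Q : ℤ) ≠ 0 := by exact_mod_cast hQ.ne'
  by_cases h0 : gI A B 0 ((Q : ℤ) * ((iy : ℤ) - ix)) ((Q : ℤ) * ((y.2 : ℤ) - x.2)) = 0
  · -- a zero of the form
    have hb : (Q : ℤ) * ((y.2 : ℤ) - x.2) ≠ 0 := by
      intro hb0
      rw [hb0] at h0
      unfold gI at h0
      have h1 : ((Q : ℤ) * ((iy : ℤ) - ix)) ^ 3 = 0 := by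
        push_cast at h0
        linarith
      have h2 : (Q : ℤ) * ((iy : ℤ) - ix) = 0 := pow_eq_zero_iff (by norm_num) |>.1 h1
      have w1 : (iy : ℤ) - ix = 0 := by
        rcases mul_eq_zero.1 h2 with h | h
        · exact absurd h hQZ
        · exact h
      have w2 : (y.2 : ℤ) - x.2 = 0 := by
        rcases mul_eq_zero.1 hb0 with h | h
        · exact absurd h hQZ
        · exact h
      apply hne
      have w3 : x.2 = y.2 := by omega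
      refine Prod.ext ?_ w3
      have w4 : iy = ix := by omega
      rw [hiy, hix, w3] at w4
      omega
    obtain ⟨ρ, hab, hρ⟩ := gI_root h0 hb
    have hnd := cop_root hp hρ hdisc hvZ (by rw [← GZ_eq]; exact hg) (hroots ρ (hRt ρ hρ))
    have hpZ : Prime (p : ℤ) := Nat.prime_iff_prime_int.1 hp
    have hcop1 : IsCoprime ((p ^ 2 : ℕ) : ℤ)
        (((sx Q f x : ℕ) : ℤ) - ρ * ((vx Q a x : ℕ) : ℤ)) := by
      push_cast
      have := ((Prime.coprime_iff_not_dvd hpZ).2 hnd).pow_left (m := 2)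
      push_cast at this
      exact this
    have h1 : ((p ^ 2 : ℕ) : ℤ) ∣ (((sx Q f x : ℕ) : ℤ) - ρ * ((vx Q a x : ℕ) : ℤ)) *
        ((Q : ℤ) * ((y.2 : ℤ) - x.2)) := by
      rw [hab] at hcc
      have e : (((sx Q f x : ℕ) : ℤ) - ρ * ((vx Q a x : ℕ) : ℤ)) *
          ((Q : ℤ) * ((y.2 : ℤ) - x.2)) =
          ((sx Q f x : ℕ) : ℤ) * ((Q : ℤ) * ((y.2 : ℤ) - x.2)) -
          ρ * ((Q : ℤ) * ((y.2 : ℤ) - x.2)) * ((vx Q a x : ℕ) : ℤ) := by ring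
      rw [e]; exact hcc
    have h2 := (cop_pS hp hpQ 2).dvd_of_dvd_mul_left (hcop1.dvd_of_dvd_mul_left h1)
    have hne2 : y.2 ≠ x.2 := by
      intro h
      apply hb
      rw [h]; ring
    have h3 := gap_of_dvd hne2 h2
    push_cast at h3
    rw [abs_sub_comm] at h3
    linarith
  · have h1 : ((p ^ 2 : ℕ) : ℤ) ≤
        |gI A B 0 ((Q : ℤ) * ((iy : ℤ) - ix)) ((Q : ℤ) * ((y.2 : ℤ) - x.2))| := by
      apply Int.le_of_dvd (abs_pos.2 h0)
      rwa [dvd_abs]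
    have h2 : (((p ^ 2 : ℕ) : ℤ) : ℝ) ≤
        ((|gI A B 0 ((Q : ℤ) * ((iy : ℤ) - ix)) ((Q : ℤ) * ((y.2 : ℤ) - x.2))| : ℤ) : ℝ) := by
      exact_mod_cast h1
    rw [Int.cast_abs] at h2
    have h3 := gI_le A B 0 (a := (Q : ℤ) * ((iy : ℤ) - ix)) (b := (Q : ℤ) * ((y.2 : ℤ) - x.2))
      (M := Q * Δ) (by
        push_cast
        rw [abs_mul, Nat.abs_cast, abs_sub_comm]
        exact mul_le_mul_of_nonneg_left c1.le hQ'.le) (by
        push_cast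
        rw [abs_mul, Nat.abs_cast, abs_sub_comm]
        exact mul_le_mul_of_nonneg_left c2.le hQ'.le)
    push_cast at h2
    linarith

/-- the exceptional lines -/
lemma d6 {Q a c l0 I T S : ℕ} {f : ℕ → ℕ} {ρ : ℤ} (hQ : 0 < Q)
    (hf : ∀ l l' : ℕ, l0 ≤ l → l ≤ l' → l' < l0 + T → f l' + c * (l' - l) ≤ f l)
    (hρ : |ρ| + 1 ≤ c) {p : ℕ} (hp : 0 < p)
    (hb : ∀ x ∈ Bx 0 l0 I T, sx Q f x ≤ S ∧ c * vx Q a x ≤ sx Q f x) :
    (((Bx 0 l0 I T).filter (fun x => ((p ^ 2 : ℕ) : ℤ) ∣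
      ((sx Q f x : ℕ) : ℤ) - ρ * ((vx Q a x : ℕ) : ℤ))).card : ℝ) ≤
      2 * S * (1 / (p : ℝ) ^ 2) * (I + 1) := by
  classical
  have hp' : (0 : ℝ) < p := by exact_mod_cast hp
  set F := (Bx 0 l0 I T).filter (fun x => ((p ^ 2 : ℕ) : ℤ) ∣
      ((sx Q f x : ℕ) : ℤ) - ρ * ((vx Q a x : ℕ) : ℤ)) with hF
  have hpp : (0 : ℤ) < ((p ^ 2 : ℕ) : ℤ) := by
    have := pow_pos hp 2
    exact_mod_cast this
  set k : ℕ × ℕ → ℤ := fun x => (((sx Q f x : ℕ) : ℤ) - ρ * ((vx Q a x : ℕ) : ℤ)) /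
    ((p ^ 2 : ℕ) : ℤ) with hk
  have hkx : ∀ x ∈ F, ((sx Q f x : ℕ) : ℤ) - ρ * ((vx Q a x : ℕ) : ℤ) =
      ((p ^ 2 : ℕ) : ℤ) * k x := by
    intro x hx
    have := (Finset.mem_filter.1 hx).2
    rw [hk]
    exact (Int.mul_ediv_cancel' this).symm
  have hρ1 : -(c : ℤ) < ρ := by
    have := neg_abs_le ρ
    linarith
  have hρ2 : ρ < (c : ℤ) := by
    have := le_abs_self ρ
    linarith
  have hpos : ∀ x ∈ F, 0 < k x ∧ ((p ^ 2 : ℕ) : ℤ) * k x ≤ 2 * (S : ℤ) := by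
    intro x hx
    have hxB := (Finset.mem_filter.1 hx).1
    obtain ⟨h1, h2⟩ := hb x hxB
    have h1' : ((sx Q f x : ℕ) : ℤ) ≤ S := by exact_mod_cast h1
    have h2' : (c : ℤ) * ((vx Q a x : ℕ) : ℤ) ≤ ((sx Q f x : ℕ) : ℤ) := by exact_mod_cast h2
    have hs0 : (0 : ℤ) < ((sx Q f x : ℕ) : ℤ) := by
      have : 0 < sx Q f x := by unfold sx; omega
      exact_mod_cast this
    have hv0 : (0 : ℤ) ≤ ((vx Q a x : ℕ) : ℤ) := Int.natCast_nonneg _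
    have h3 := hkx x hx
    have h4 : 0 < ((sx Q f x : ℕ) : ℤ) - ρ * ((vx Q a x : ℕ) : ℤ) := by
      rcases hv0.eq_or_lt with h0 | h0
      · rw [← h0]; linarith
      · have : ρ * ((vx Q a x : ℕ) : ℤ) < (c : ℤ) * ((vx Q a x : ℕ) : ℤ) :=
          mul_lt_mul_of_pos_right hρ2 h0
        linarith
    constructor
    · rw [h3] at h4
      exact pos_of_mul_pos_right h4 hpp.le
    · rw [← h3]
      have : -(c : ℤ) * ((vx Q a x : ℕ) : ℤ) ≤ ρ * ((vx Q a x : ℕ) : ℤ) :=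
        mul_le_mul_of_nonneg_right hρ1.le hv0
      linarith
  have h1 := card_fib F k ((I : ℝ) + 1) (by
    intro t ht
    set G := F.filter fun x => k x = t with hG
    have hGne : G.Nonempty := by
      obtain ⟨x, hx, hxt⟩ := Finset.mem_image.1 ht
      exact ⟨x, Finset.mem_filter.2 ⟨hx, hxt⟩⟩
    obtain ⟨x0, hx0, hmin⟩ := Finset.exists_min_image G (fun x => x.2) hGne
    -- two points of the line
    have key : ∀ x ∈ G, ∀ y ∈ G, x.2 ≤ y.2 → y.2 ≤ x.2 + I ∧ (x.2 = y.2 → x = y) := by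
      intro x hx y hy hxy
      obtain ⟨hx1, hx2⟩ := Finset.mem_filter.1 hx
      obtain ⟨hy1, hy2⟩ := Finset.mem_filter.1 hy
      obtain ⟨⟨_, g2⟩, g3, g4⟩ := mem_Bx.1 (Finset.mem_filter.1 hx1).1
      obtain ⟨⟨_, k2⟩, k3, k4⟩ := mem_Bx.1 (Finset.mem_filter.1 hy1).1
      have e1 := hkx x hx1
      have e2 := hkx y hy1
      rw [hx2] at e1
      rw [hy2] at e2
      have e3 : (Q : ℤ) * (((f y.2 : ℤ) + y.1 - f x.2 - x.1) - ρ * ((y.2 : ℤ) - x.2)) = 0 := by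
        unfold sx vx at e1 e2
        push_cast at e1 e2
        linear_combination e2 - e1
      have hQZ : (Q : ℤ) ≠ 0 := by exact_mod_cast hQ.ne'
      have e4 : ((f y.2 : ℤ) + y.1 - f x.2 - x.1) = ρ * ((y.2 : ℤ) - x.2) := by
        rcases mul_eq_zero.1 e3 with h | h
        · exact absurd h hQZ
        · linarith
      have hff := hf x.2 y.2 g3 hxy k4
      have hff' : (f y.2 : ℤ) + c * ((y.2 : ℤ) - x.2) ≤ f x.2 := by
        have : ((f y.2 + c * (y.2 - x.2) : ℕ) : ℤ) ≤ ((f x.2 : ℕ) : ℤ) := by exact_mod_cast hff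
        push_cast [Nat.cast_sub hxy] at this
        exact this
      constructor
      · have e5 : (ρ + c) * ((y.2 : ℤ) - x.2) ≤ I := by
          have : (ρ + c) * ((y.2 : ℤ) - x.2) = ρ * ((y.2 : ℤ) - x.2) +
            c * ((y.2 : ℤ) - x.2) := by ring
          rw [this, ← e4]
          omega
        have e6 : 1 * ((y.2 : ℤ) - x.2) ≤ (ρ + c) * ((y.2 : ℤ) - x.2) := by
          apply mul_le_mul_of_nonneg_right
          · linarith
          · omega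
        omega
      · intro heq
        rw [heq] at e4
        have : (y.2 : ℤ) - y.2 = 0 := by ring
        rw [this, mul_zero] at e4
        refine Prod.ext ?_ heq
        omega
    have hsp := card_spaced G (fun x => (x.2 : ℝ)) (a := x0.2) (L := I) one_pos
      (Nat.cast_nonneg I) ?_ ?_
    · rw [div_one] at hsp
      exact hsp
    · intro x hx
      have h2 := hmin x hx
      have h3 := (key x0 hx0 x hx h2).1
      refine ⟨by exact_mod_cast h2, by exact_mod_cast h3⟩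
    · intro x hx y hy hne
      have hne2 : x.2 ≠ y.2 := by
        intro h
        exact hne ((key x hx y hy h.le).2 h)
      have := gap_of_dvd (d := 1) hne2 (by simp)
      simpa using this)
  refine h1.trans ?_
  have h2 : ((F.image k).card : ℝ) ≤ 2 * S * (1 / (p : ℝ) ^ 2) := by
    have h3 : F.image k ⊆ Finset.Icc 1 (2 * (S : ℤ) / ((p ^ 2 : ℕ) : ℤ)) := by
      intro t ht
      obtain ⟨x, hx, rfl⟩ := Finset.mem_image.1 ht
      obtain ⟨g1, g2⟩ := hpos x hx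
      rw [Finset.mem_Icc]
      refine ⟨g1, ?_⟩
      rw [Int.le_ediv_iff_mul_le hpp]
      linarith
    have h4 := Finset.card_le_card h3
    rw [Int.card_Icc] at h4
    have h5 : (0 : ℤ) ≤ 2 * (S : ℤ) / ((p ^ 2 : ℕ) : ℤ) := Int.ediv_nonneg (by positivity) hpp.le
    have h6 : ((F.image k).card : ℤ) ≤ 2 * (S : ℤ) / ((p ^ 2 : ℕ) : ℤ) := by
      have : ((F.image k).card : ℤ) ≤
        (((2 * (S : ℤ) / ((p ^ 2 : ℕ) : ℤ) + 1 - 1).toNat : ℕ) : ℤ) := by exact_mod_cast h4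
      rw [Int.toNat_of_nonneg (by linarith)] at this
      linarith
    have h7 : ((p ^ 2 : ℕ) : ℤ) * ((F.image k).card : ℤ) ≤ 2 * (S : ℤ) := by
      have h8 := mul_le_mul_of_nonneg_left h6 hpp.le
      have h9 := Int.mul_ediv_self_le (x := 2 * (S : ℤ)) hpp.ne'
      linarith
    have h8 : (p : ℝ) ^ 2 * ((F.image k).card : ℝ) ≤ 2 * (S : ℝ) := by exact_mod_cast h7
    rw [mul_one_div, le_div_iff₀ (by positivity)]
    linarith
  exact mul_le_mul_of_nonneg_right h2 (by positivity)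

end Pool.Agent.TH827.GF
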