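import Mathlib
import Pool.Agent.TH827.GE.Sums
import Pool.Agent.TH827.GF.St

/-! The sums over primes, for curves with rational points of order two. -/

set_option autoImplicit false

namespace Pool.Agent.TH827.GF

open Finset Pool.Agent.TH562.TW Pool.Agent.TH562.R2 Pool.Agent.TH827.GE

/-- the separation for one prime of the middle range -/
lemma delta {C D : ℝ} {Q n p : ℕ} (hC : 0 < C) (hQ : 0 < Q) (hn : 1 ≤ n) (hD : D = (C + 1) * Q)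
    (hp1 : n ^ 11 < p) (hp2 : p ≤ n ^ 19) {U I : ℝ} (hU : 0 ≤ U) (hI : 0 ≤ I) :
    ∃ Δ : ℝ, 0 < Δ ∧ C * (Q * Δ) ^ 3 < (p : ℝ) ^ 2 ∧ Δ ≤ (p : ℝ) ^ 2 ∧
      3 * ((4 * U / Δ + 1) * (2 * I / Δ + 2)) ≤
        3 * (8 * U * I * D ^ 2 / (n : ℝ) ^ 3 + (8 * U + 2 * I) * D * (n : ℝ) ^ 7) *
          (1 / (p : ℝ)) + 6 := by
  have hQ' : (0 : ℝ) < Q := by exact_mod_cast hQ
  have hn1 : (1 : ℝ) ≤ n := by exact_mod_cast hn
  have hn' : (0 : ℝ) < n := by linarith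
  have hppos : 0 < p := by omega
  have hp' : (0 : ℝ) < p := by exact_mod_cast hppos
  have hD0 : 0 < D := by rw [hD]; positivity
  set x : ℝ := (p : ℝ) ^ ((1 : ℝ) / 3) with hx
  have hx0 : 0 < x := Real.rpow_pos_of_pos hp' _
  have hx3 : x ^ 3 = p := by
    rw [hx, ← Real.rpow_natCast, ← Real.rpow_mul hp'.le]
    norm_num
  have hx5 : (n : ℝ) ^ 3 ≤ x := by
    apply le_of_pow_le_pow_left₀ (n := 3) (by norm_num) hx0.le
    rw [hx3, ← pow_mul]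
    have h1 : (n : ℝ) ^ (3 * 3) ≤ (n : ℝ) ^ 11 := pow_le_pow_right₀ hn1 (by norm_num)
    have h2 : (n : ℝ) ^ 11 ≤ p := by exact_mod_cast hp1.le
    linarith
  have hx21 : x ≤ (n : ℝ) ^ 7 := by
    apply le_of_pow_le_pow_left₀ (n := 3) (by norm_num) (by positivity)
    rw [hx3, ← pow_mul]
    have h1 : (n : ℝ) ^ 19 ≤ (n : ℝ) ^ (7 * 3) := pow_le_pow_right₀ hn1 (by norm_num)
    have h2 : (p : ℝ) ≤ (n : ℝ) ^ 19 := by exact_mod_cast hp2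
    linarith
  have hD1 : 1 ≤ D := by
    rw [hD]
    have h1 : (1 : ℝ) ≤ Q := by exact_mod_cast hQ
    nlinarith
  have hx1 : 1 ≤ x := le_trans (one_le_pow₀ hn1) hx5
  refine ⟨x ^ 2 / D, by positivity, ?_, ?_, ?_⟩
  · have e : C * (Q * (x ^ 2 / D)) ^ 3 = (x ^ 3) ^ 2 * (C / (C + 1) ^ 3) := by
      rw [hD]
      field_simp
    rw [e, hx3]
    have h1 : C / (C + 1) ^ 3 < 1 := by
      rw [div_lt_one (by positivity)]
      have : C + 1 ≤ (C + 1) ^ 3 := le_self_pow₀ (by linarith) (by norm_num)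
      linarith
    have h2 : (0 : ℝ) < (p : ℝ) ^ 2 := by positivity
    nlinarith
  · have h1 : x ^ 2 / D ≤ x ^ 2 := div_le_self (by positivity) hD1
    have h2 : x ^ 2 ≤ x ^ 6 := pow_le_pow_right₀ hx1 (by norm_num)
    have h3 : x ^ 6 = (p : ℝ) ^ 2 := by rw [← hx3]; ring
    linarith
  · have e : (4 * U / (x ^ 2 / D) + 1) * (2 * I / (x ^ 2 / D) + 2) =
        8 * U * I * D ^ 2 / (x ^ 3 * x) + (8 * U + 2 * I) * D * x / x ^ 3 + 2 := by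
      field_simp
      ring
    rw [e, hx3]
    have h1 : 8 * U * I * D ^ 2 / (p * x) ≤ 8 * U * I * D ^ 2 / (p * (n : ℝ) ^ 3) :=
      div_le_div_of_nonneg_left (by positivity) (by positivity)
        (mul_le_mul_of_nonneg_left hx5 hp'.le)
    have h2 : (8 * U + 2 * I) * D * x / p ≤ (8 * U + 2 * I) * D * (n : ℝ) ^ 7 / p :=
      div_le_div_of_nonneg_right (mul_le_mul_of_nonneg_left hx21 (by positivity)) hp'.le
    have h3 : 8 * U * I * D ^ 2 / (p * (n : ℝ) ^ 3) =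
        8 * U * I * D ^ 2 / (n : ℝ) ^ 3 * (1 / p) := by
      field_simp
    have h4 : (8 * U + 2 * I) * D * (n : ℝ) ^ 7 / p =
        (8 * U + 2 * I) * D * (n : ℝ) ^ 7 * (1 / p) := by
      ring
    rw [h3] at h1
    rw [h4] at h2
    linarith

lemma sum6 {P1 : ℕ} (hP1 : 1 ≤ P1) (P2 : ℕ) {c : ℝ} (hc : 0 ≤ c) (S : ℝ) (hS : 0 ≤ S) :
    ∑ p ∈ Pr P1 P2, 2 * S * (1 / (p : ℝ) ^ 2) * c ≤ 2 * S * (1 / P1) * c := by
  rw [← Finset.sum_mul, ← Finset.mul_sum]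
  apply mul_le_mul_of_nonneg_right _ hc
  exact mul_le_mul_of_nonneg_left (Pr_sq P1 P2 hP1) (by positivity)

/-- the numerical inequality -/
lemma numer {W n K0 K2 C1 CS κ : ℕ} {D : ℝ} (hW : 100 ≤ W) (hD : 0 ≤ D) (hn : 1 ≤ n)
    (hK0 : 1 ≤ K0) (hC1 : 300 * K2 ≤ C1) (hC1pos : 1 ≤ C1)
    (hbig : 10 * (32 * ((C1 : ℝ) + K0) + 1 + C1 + 3 * K0 + 480 * ((K0 : ℝ) + CS + C1) * C1 * D ^ 2 +
      60 * (8 * ((K0 : ℝ) + CS + C1) + 2 * C1) * D + 6 + 3 * (CS : ℝ) ^ 2 + 126 * K0 +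
      4 * κ * CS * C1) ≤ (n : ℝ))
    {I T S P : ℝ} (hI : I = C1 * (n : ℝ) ^ 12) (hT : T = K0 * (n : ℝ) ^ 30)
    (hS : S = CS * (n : ℝ) ^ 30) (hP : P = K2 * (n : ℝ) ^ 42) :
    (I * T / W + (I + T) * (1 + Real.log ((n ^ 31 : ℕ) : ℝ)) + (n : ℝ) ^ 31) +
      (I * T / W + I * (n : ℝ) ^ 16) +
      3 * (I * T / W + T * (n : ℝ) ^ 11) +
      (3 * (8 * (T + S + I) * I * D ^ 2 / (n : ℝ) ^ 3 +
        (8 * (T + S + I) + 2 * I) * D * (n : ℝ) ^ 7) *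
        (1 + Real.log ((n ^ 19 : ℕ) : ℝ)) + 6 * (n : ℝ) ^ 19) +
      3 * (S ^ 2 / (n : ℝ) ^ 19 + P) +
      T * (126 * ((n : ℝ) ^ 5 * (I / (12600 * (n : ℝ) ^ 5)) + (n : ℝ) ^ 6)) +
      κ * (2 * S * (1 / (n : ℝ) ^ 11) * (I + 1)) ≤ 1 / 2 * (I * T) := by
  have hn1 : (1 : ℝ) ≤ n := by exact_mod_cast hn
  have hn0 : (0 : ℝ) < n := by linarith
  have hW' : (100 : ℝ) ≤ W := by exact_mod_cast hW
  have l1 := log_le hn 31
  have l2 := log_le hn 19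
  have hC1' : (1 : ℝ) ≤ C1 := by exact_mod_cast hC1pos
  have hK0' : (1 : ℝ) ≤ K0 := by exact_mod_cast hK0
  have hCS' : (0 : ℝ) ≤ CS := Nat.cast_nonneg _
  have hK2' : 300 * (K2 : ℝ) ≤ C1 := by exact_mod_cast hC1
  have l1' : (0 : ℝ) ≤ 1 + Real.log ((n ^ 31 : ℕ) : ℝ) := by
    have : (0 : ℝ) ≤ Real.log ((n ^ 31 : ℕ) : ℝ) := Real.log_natCast_nonneg _
    linarith
  have l2' : (0 : ℝ) ≤ 1 + Real.log ((n ^ 19 : ℕ) : ℝ) := by
    have : (0 : ℝ) ≤ Real.log ((n ^ 19 : ℕ) : ℝ) := Real.log_natCast_nonneg _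
    linarith
  set U0 : ℝ := (K0 : ℝ) + CS + C1 with hU0
  have hU0pos : 0 ≤ U0 := by positivity
  set N : ℝ := (n : ℝ) ^ 41 with hN
  have hN0 : 0 < N := by positivity
  have mono : ∀ k : ℕ, k ≤ 41 → (n : ℝ) ^ k ≤ N := fun k hk => pow_le_pow_right₀ hn1 hk
  have e42 : I * T = C1 * K0 * (n * N) := by rw [hI, hT, hN]; ring
  have hIT0 : 0 < I * T := by rw [e42]; positivity
  have hIT1 : n * N ≤ I * T := by
    rw [e42]
    have : 1 ≤ (C1 : ℝ) * K0 := by nlinarith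
    have h2 : 0 < (n : ℝ) * N := by positivity
    nlinarith
  have hI0 : 0 ≤ I := by rw [hI]; positivity
  have hT0 : 0 ≤ T := by rw [hT]; positivity
  have hS0 : 0 ≤ S := by rw [hS]; positivity
  have h1230 : (n : ℝ) ^ 12 ≤ (n : ℝ) ^ 30 := pow_le_pow_right₀ hn1 (by norm_num)
  have hI30 : I ≤ C1 * (n : ℝ) ^ 30 := by
    rw [hI]; exact mul_le_mul_of_nonneg_left h1230 (by positivity)
  have hU : T + S + I ≤ U0 * (n : ℝ) ^ 30 := by
    have e : U0 * (n : ℝ) ^ 30 = K0 * (n : ℝ) ^ 30 + CS * (n : ℝ) ^ 30 + C1 * (n : ℝ) ^ 30 := by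
      rw [hU0]; ring
    rw [e, hT, hS]
    linarith
  have t1 : I * T / W ≤ I * T / 100 := div_le_div_of_nonneg_left hIT0.le (by norm_num) hW'
  have t2 : (I + T) * (1 + Real.log ((n ^ 31 : ℕ) : ℝ)) ≤ 32 * ((C1 : ℝ) + K0) * N := by
    calc (I + T) * (1 + Real.log ((n ^ 31 : ℕ) : ℝ))
        ≤ ((C1 + K0) * (n : ℝ) ^ 30) * ((31 + 1) * n) := by
          refine mul_le_mul ?_ (by exact_mod_cast l1) l1' (by positivity)
          rw [hT]; linarith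
      _ = 32 * ((C1 : ℝ) + K0) * (n : ℝ) ^ 31 := by ring
      _ ≤ _ := mul_le_mul_of_nonneg_left (mono 31 (by norm_num)) (by positivity)
  have t3 := mono 31 (by norm_num)
  have t4 : I * (n : ℝ) ^ 16 ≤ C1 * N := by
    have e : I * (n : ℝ) ^ 16 = C1 * (n : ℝ) ^ 28 := by rw [hI]; ring
    rw [e]
    exact mul_le_mul_of_nonneg_left (mono 28 (by norm_num)) (by positivity)
  have t5 : T * (n : ℝ) ^ 11 ≤ K0 * N := by
    have e : T * (n : ℝ) ^ 11 = K0 * (n : ℝ) ^ 41 := by rw [hT]; ring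
    rw [e]
  have t6 : 3 * (8 * (T + S + I) * I * D ^ 2 / (n : ℝ) ^ 3 +
        (8 * (T + S + I) + 2 * I) * D * (n : ℝ) ^ 7) *
        (1 + Real.log ((n ^ 19 : ℕ) : ℝ)) ≤
      480 * U0 * C1 * D ^ 2 * N + 60 * (8 * U0 + 2 * C1) * D * N := by
    have a1 : 8 * (T + S + I) * I * D ^ 2 / (n : ℝ) ^ 3 ≤ 8 * U0 * C1 * D ^ 2 * (n : ℝ) ^ 39 := by
      rw [div_le_iff₀ (by positivity)]
      have b1 : 8 * (T + S + I) * I * D ^ 2 ≤ 8 * (U0 * (n : ℝ) ^ 30) * I * D ^ 2 := by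
        apply mul_le_mul_of_nonneg_right _ (by positivity)
        apply mul_le_mul_of_nonneg_right _ hI0
        linarith
      have b2 : 8 * (U0 * (n : ℝ) ^ 30) * I * D ^ 2 =
          8 * U0 * C1 * D ^ 2 * (n : ℝ) ^ 39 * (n : ℝ) ^ 3 := by rw [hI]; ring
      linarith
    have a2 : (8 * (T + S + I) + 2 * I) * D * (n : ℝ) ^ 7 ≤
        (8 * U0 + 2 * C1) * D * (n : ℝ) ^ 37 := by
      have b1 : 8 * (T + S + I) + 2 * I ≤ (8 * U0 + 2 * C1) * (n : ℝ) ^ 30 := by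
        have : (8 * U0 + 2 * C1) * (n : ℝ) ^ 30 = 8 * (U0 * (n : ℝ) ^ 30) +
          2 * (C1 * (n : ℝ) ^ 30) := by ring
        linarith
      have b2 : (8 * (T + S + I) + 2 * I) * D * (n : ℝ) ^ 7 ≤
          ((8 * U0 + 2 * C1) * (n : ℝ) ^ 30) * D * (n : ℝ) ^ 7 := by
        apply mul_le_mul_of_nonneg_right _ (by positivity)
        exact mul_le_mul_of_nonneg_right b1 hD
      have b3 : ((8 * U0 + 2 * C1) * (n : ℝ) ^ 30) * D * (n : ℝ) ^ 7 =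
        (8 * U0 + 2 * C1) * D * (n : ℝ) ^ 37 := by ring
      linarith
    calc 3 * (8 * (T + S + I) * I * D ^ 2 / (n : ℝ) ^ 3 +
        (8 * (T + S + I) + 2 * I) * D * (n : ℝ) ^ 7) * (1 + Real.log ((n ^ 19 : ℕ) : ℝ))
        ≤ 3 * (8 * U0 * C1 * D ^ 2 * (n : ℝ) ^ 39 + (8 * U0 + 2 * C1) * D * (n : ℝ) ^ 37) *
          ((19 + 1) * n) := by
          refine mul_le_mul ?_ (by exact_mod_cast l2) l2' (by positivity)
          linarith
      _ = 480 * U0 * C1 * D ^ 2 * (n : ℝ) ^ 40 + 60 * (8 * U0 + 2 * C1) * D * (n : ℝ) ^ 38 := by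
          ring
      _ ≤ _ := by
          have b1 := mul_le_mul_of_nonneg_left (mono 40 (by norm_num))
            (by positivity : 0 ≤ 480 * U0 * C1 * D ^ 2)
          have b2 := mul_le_mul_of_nonneg_left (mono 38 (by norm_num))
            (by positivity : 0 ≤ 60 * (8 * U0 + 2 * C1) * D)
          linarith
  have t7 := mono 19 (by norm_num)
  have t8 : S ^ 2 / (n : ℝ) ^ 19 = (CS : ℝ) ^ 2 * N := by
    rw [hS, hN]; field_simp
  have t9 : 3 * P ≤ I * T / 100 := by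
    rw [hP, e42]
    have e : (K2 : ℝ) * (n : ℝ) ^ 42 = K2 * (n * N) := by rw [hN]; ring
    rw [e]
    have h2 : 0 < (n : ℝ) * N := by positivity
    have h3 : 300 * (K2 : ℝ) ≤ C1 * K0 := by nlinarith
    nlinarith
  have t10 : T * (126 * ((n : ℝ) ^ 5 * (I / (12600 * (n : ℝ) ^ 5)) + (n : ℝ) ^ 6)) ≤
      I * T / 100 + 126 * K0 * N := by
    have a1 : (n : ℝ) ^ 5 * (I / (12600 * (n : ℝ) ^ 5)) = I / 12600 := by
      field_simp
    rw [a1]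
    have a2 : T * (126 * (I / 12600 + (n : ℝ) ^ 6)) = I * T / 100 + 126 * (T * (n : ℝ) ^ 6) := by
      ring
    have a3 : T * (n : ℝ) ^ 6 = K0 * (n : ℝ) ^ 36 := by rw [hT]; ring
    rw [a2, a3]
    have := mul_le_mul_of_nonneg_left (mono 36 (by norm_num)) (by positivity : 0 ≤ (K0 : ℝ))
    linarith
  have t12 : κ * (2 * S * (1 / (n : ℝ) ^ 11) * (I + 1)) ≤ 4 * κ * CS * C1 * N := by
    have a1 : I + 1 ≤ 2 * C1 * (n : ℝ) ^ 12 := by
      have : 1 ≤ C1 * (n : ℝ) ^ 12 := by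
        have h1 : (1 : ℝ) ≤ (n : ℝ) ^ 12 := one_le_pow₀ hn1
        nlinarith
      rw [hI]; linarith
    have a2 : 2 * S * (1 / (n : ℝ) ^ 11) = 2 * CS * (n : ℝ) ^ 19 := by
      rw [hS]; field_simp
    have a3 : 2 * S * (1 / (n : ℝ) ^ 11) * (I + 1) ≤
        2 * CS * (n : ℝ) ^ 19 * (2 * C1 * (n : ℝ) ^ 12) := by
      rw [a2]
      exact mul_le_mul_of_nonneg_left a1 (by positivity)
    have a4 : 2 * CS * (n : ℝ) ^ 19 * (2 * C1 * (n : ℝ) ^ 12) = 4 * CS * C1 * (n : ℝ) ^ 31 := by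
      ring
    have a5 : 4 * (CS : ℝ) * C1 * (n : ℝ) ^ 31 ≤ 4 * CS * C1 * N :=
      mul_le_mul_of_nonneg_left (mono 31 (by norm_num)) (by positivity)
    calc (κ : ℝ) * (2 * S * (1 / (n : ℝ) ^ 11) * (I + 1)) ≤ κ * (4 * CS * C1 * N) :=
          mul_le_mul_of_nonneg_left (by linarith) (Nat.cast_nonneg _)
      _ = _ := by ring
  have t11 := mul_le_mul_of_nonneg_right hbig hN0.le
  rw [t8]
  nlinarith

end Pool.Agent.TH827.GF
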