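import Mathlib
import Pool.Agent.TH827.GF.Sums
import Pool.Agent.TH827.GE.Lg
import Pool.Agent.TH827.GE.Comb
import Pool.Agent.TH562.TW.BadT

/-! Most pairs of the strip are good. -/

set_option autoImplicit false

namespace Pool.Agent.TH827.GF

open Finset Pool.Agent.TH562.TW Pool.Agent.TH562.R2 Pool.Agent.TH827.GE

open Classical in
theorem strip_good {A B : ℤ} {Q a W K0 K2 C1 CS c : ℕ} {Rt : Finset ℤ}
    (hRt : ∀ ρ : ℤ, ρ ^ 3 + A * ρ + B = 0 → ρ ∈ Rt) (hRc : ∀ ρ ∈ Rt, |ρ| + 1 ≤ c) (hQ : 0 < Q)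
    (ha : 0 < a) (hW : 100 ≤ W)
    (hQW : ∀ p : ℕ, p.Prime → W < p → ¬ p ∣ Q)
    (hQW' : ∀ p : ℕ, p.Prime → p ≤ W → p ∣ Q)
    (hdisc : ∀ p : ℕ, p.Prime → W < p → ¬ (p : ℤ) ∣ 4 * A ^ 3 + 27 * B ^ 2)
    (hK0 : 3 * (Q * 12600) ^ 6 < K0) (hC1 : 300 * K2 ≤ C1) (hC1pos : 1 ≤ C1) (hCS : 1 ≤ CS) :
    ∃ N : ℕ, ∀ n : ℕ, N ≤ n → ∀ f : ℕ → ℕ,
      (∀ l l' : ℕ, K0 * n ^ 30 ≤ l → l ≤ l' → l' < K0 * n ^ 30 + K0 * n ^ 30 →
        f l' + c * (l' - l) ≤ f l) →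
      (∀ x ∈ Bx 0 (K0 * n ^ 30) (C1 * n ^ 12) (K0 * n ^ 30), OkS A B Q a f (K0 * n ^ 30) x ∧
        sx Q f x ≤ CS * n ^ 30 ∧ vx Q a x ≤ sx Q f x ∧ c * vx Q a x ≤ sx Q f x ∧
        2 * (sx Q f x) ^ 3 < n ^ 6 * (K2 * n ^ 42) ^ 2) →
      (((Bx 0 (K0 * n ^ 30) (C1 * n ^ 12) (K0 * n ^ 30)).filter fun x =>
        ¬ GoodT A B 0 Q a W (f x.2 + x.1, x.2)).card : ℝ) ≤
        1 / 2 * (((C1 * n ^ 12 : ℕ) : ℝ) * ((K0 * n ^ 30 : ℕ) : ℝ)) := by
  set D : ℝ := (Cg A B 0 + 1) * Q with hD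
  have hC := Cg_pos A B 0
  have hQ' : (0 : ℝ) < Q := by exact_mod_cast hQ
  have hD0 : 0 < D := by rw [hD]; positivity
  obtain ⟨N1, hN1⟩ := exists_nat_ge
    (10 * (32 * ((C1 : ℝ) + K0) + 1 + C1 + 3 * K0 + 480 * ((K0 : ℝ) + CS + C1) * C1 * D ^ 2 +
      60 * (8 * ((K0 : ℝ) + CS + C1) + 2 * C1) * D + 6 + 3 * (CS : ℝ) ^ 2 + 126 * K0 +
      4 * (Rt.card : ℕ) * CS * C1))
  refine ⟨N1 + 100 * Q * C1 + W + CS + K2 + 10, ?_⟩
  intro n hn f hf0 hR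
  have hf : ∀ l l' : ℕ, K0 * n ^ 30 ≤ l → l ≤ l' → l' < K0 * n ^ 30 + K0 * n ^ 30 →
      f l' ≤ f l := fun l l' h1 h2 h3 => (Nat.le_add_right _ _).trans (hf0 l l' h1 h2 h3)
  have hn10 : 10 ≤ n := by omega
  have hnW : W ≤ n := by omega
  have hnN : N1 ≤ n := by omega
  have hn1 : 1 ≤ n := by omega
  have hnCS : CS ≤ n := by omega
  have hnQ2 : 100 * Q * C1 ≤ n := by omega
  have hn0 : 0 < n := by omega
  have hK01 : 1 ≤ K0 := by omega
  set I := C1 * n ^ 12 with hI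
  set T := K0 * n ^ 30 with hT
  set S := CS * n ^ 30 with hS
  set P := K2 * n ^ 42 with hP
  have hSpos : 0 < S := Nat.mul_pos (by omega) (pow_pos hn0 30)
  have hW1 : 1 ≤ W := by omega
  have hW' : (0 : ℝ) < W := by exact_mod_cast hW1
  set T1 : ℕ → Finset (ℕ × ℕ) := fun p => (Bx 0 T I T).filter
    (fun x => p ∣ sx Q f x ∧ p ∣ vx Q a x) with hT1
  set T2 : ℕ → Finset (ℕ × ℕ) := fun p => (Bx 0 T I T).filter
    (fun x => p ^ 2 ∣ vx Q a x) with hT2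
  set T3 : ℕ → Finset (ℕ × ℕ) := fun p => (Bx 0 T I T).filter
    (fun x => ((p ^ 2 : ℕ) : ℤ) ∣ GZ A B 0 (sx Q f x) (vx Q a x) ∧ ¬ p ∣ vx Q a x)
    with hT3
  set T4 : ℕ → Finset (ℕ × ℕ) := fun p => (Bx 0 T I T).filter
    (fun x => (((p ^ 2 : ℕ) : ℤ) ∣ GZ A B 0 (sx Q f x) (vx Q a x) ∧ ¬ p ∣ vx Q a x) ∧
      Nat.Coprime (sx Q f x) (vx Q a x))
    with hT4
  set T6 : ℤ → ℕ → Finset (ℕ × ℕ) := fun ρ p => (Bx 0 T I T).filter
    (fun x => ((p ^ 2 : ℕ) : ℤ) ∣ ((sx Q f x : ℕ) : ℤ) - ρ * ((vx Q a x : ℕ) : ℤ)) with hT6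
  set T3r : ℕ → Finset (ℕ × ℕ) := fun p => (Bx 0 T I T).filter
    (fun x => (((p ^ 2 : ℕ) : ℤ) ∣ GZ A B 0 (sx Q f x) (vx Q a x) ∧ ¬ p ∣ vx Q a x) ∧
      ∀ ρ ∈ Rt, ¬ ((p ^ 2 : ℕ) : ℤ) ∣ ((sx Q f x : ℕ) : ℤ) - ρ * ((vx Q a x : ℕ) : ℤ))
    with hT3r
  set T5 : Finset (ℕ × ℕ) := (Bx 0 T I T).filter
    (fun x => ∃ p : ℕ, p.Prime ∧ P < p ∧
      ((p ^ 2 : ℕ) : ℤ) ∣ GZ A B 0 (sx Q f x) (vx Q a x)) with hT5
  have hWn11 : W ≤ n ^ 11 := hnW.trans (Nat.le_self_pow (by norm_num) n)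
  have h1119 : n ^ 11 ≤ n ^ 19 := Nat.pow_le_pow_right hn0 (by norm_num)
  have hSn : S ≤ n ^ 31 := by
    rw [hS]
    calc CS * n ^ 30 ≤ n * n ^ 30 := Nat.mul_le_mul_right _ hnCS
      _ = n ^ 31 := by ring
  have hsxpos : ∀ x, 0 < sx Q f x := fun x => by unfold sx; omega
  have hvxpos : ∀ x, 0 < vx Q a x := fun x => by unfold vx; omega
  -- covering
  have hcov : ((Bx 0 T I T).filter fun x => ¬ GoodT A B 0 Q a W (f x.2 + x.1, x.2)) ⊆
      ((((((Pr W (n ^ 31)).biUnion T1 ∪ (Pr W (n ^ 16)).biUnion T2) ∪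
      (Pr W (n ^ 11)).biUnion T3) ∪ (Pr (n ^ 11) (n ^ 19)).biUnion T3r) ∪
      (Pr (n ^ 19) P).biUnion T4) ∪ T5) ∪
      Rt.biUnion fun ρ => (Pr (n ^ 11) (n ^ 19)).biUnion (T6 ρ) := by
    intro x hxb
    obtain ⟨hx, hbad⟩ := Finset.mem_filter.1 hxb
    obtain ⟨hR0, hS1, hS2, _, hS3⟩ := hR x hx
    have hbad' : ¬ (Nat.Coprime (sx Q f x) (vx Q a x) ∧ ∀ p : ℕ, p.Prime → W < p →
        ¬ p ^ 2 ∣ vx Q a x ∧ ¬ ((p ^ 2 : ℕ) : ℤ) ∣ GZ A B 0 (sx Q f x) (vx Q a x)) := hbad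
    by_cases hcop : Nat.Coprime (sx Q f x) (vx Q a x)
    · push Not at hbad'
      obtain ⟨p, hp, hWp, hbad⟩ := hbad' hcop
      by_cases hv : p ^ 2 ∣ vx Q a x
      · -- T2
        apply Finset.mem_union_left
        apply Finset.mem_union_left
        apply Finset.mem_union_left
        apply Finset.mem_union_left
        apply Finset.mem_union_left
        apply Finset.mem_union_right
        refine Finset.mem_biUnion.2 ⟨p, mem_Pr.2 ⟨⟨hWp, ?_⟩, hp⟩, Finset.mem_filter.2 ⟨hx, hv⟩⟩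
        by_contra hpn
        push Not at hpn
        have h1 := Nat.le_of_dvd (hvxpos x) hv
        have h2 : (n ^ 16) ^ 2 < p ^ 2 := Nat.pow_lt_pow_left hpn (by norm_num)
        have h3 : n ^ 31 ≤ (n ^ 16) ^ 2 := by
          rw [← pow_mul]
          exact Nat.pow_le_pow_right hn0 (by norm_num)
        omega
      · have hg := hbad hv
        have hpv : ¬ p ∣ vx Q a x := by
          intro hpv
          have hpZ : Prime (p : ℤ) := Nat.prime_iff_prime_int.1 hp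
          have g1 : (p : ℤ) ∣ GZ A B 0 (sx Q f x) (vx Q a x) := by
            refine Dvd.dvd.trans ?_ hg
            push_cast
            exact dvd_pow_self _ two_ne_zero
          have g2 : (p : ℤ) ∣ ((vx Q a x : ℕ) : ℤ) := Int.natCast_dvd_natCast.2 hpv
          have g3 : (p : ℤ) ∣ (((sx Q f x : ℕ) : ℤ)) ^ 3 := by
            have e : (((sx Q f x : ℕ) : ℤ)) ^ 3 = GZ A B 0 (sx Q f x) (vx Q a x) -
                ((vx Q a x : ℕ) : ℤ) * (A * ((sx Q f x : ℕ) : ℤ) *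
                  ((vx Q a x : ℕ) : ℤ) + B * ((vx Q a x : ℕ) : ℤ) ^ 2) := by
              unfold GZ; push_cast; ring
            rw [e]
            exact dvd_sub g1 (Dvd.dvd.mul_right g2 _)
          have g4 : p ∣ sx Q f x := Int.natCast_dvd_natCast.1 (hpZ.dvd_of_dvd_pow g3)
          exact hp.one_lt.ne' (Nat.Coprime.eq_one_of_dvd (hcop.coprime_dvd_left g4) hpv)
        rcases le_or_gt p (n ^ 11) with h11 | h11
        · apply Finset.mem_union_left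
          apply Finset.mem_union_left
          apply Finset.mem_union_left
          apply Finset.mem_union_left
          apply Finset.mem_union_right
          exact Finset.mem_biUnion.2 ⟨p, mem_Pr.2 ⟨⟨hWp, h11⟩, hp⟩,
            Finset.mem_filter.2 ⟨hx, hg, hpv⟩⟩
        · rcases le_or_gt p (n ^ 19) with h19 | h19
          · by_cases hroots : ∀ ρ ∈ Rt, ¬ ((p ^ 2 : ℕ) : ℤ) ∣
                ((sx Q f x : ℕ) : ℤ) - ρ * ((vx Q a x : ℕ) : ℤ)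
            · apply Finset.mem_union_left
              apply Finset.mem_union_left
              apply Finset.mem_union_left
              apply Finset.mem_union_right
              exact Finset.mem_biUnion.2 ⟨p, mem_Pr.2 ⟨⟨h11, h19⟩, hp⟩,
                Finset.mem_filter.2 ⟨hx, ⟨hg, hpv⟩, hroots⟩⟩
            · push Not at hroots
              obtain ⟨ρ, hρ1, hρ2⟩ := hroots
              apply Finset.mem_union_right
              exact Finset.mem_biUnion.2 ⟨ρ, hρ1, Finset.mem_biUnion.2 ⟨p,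
                mem_Pr.2 ⟨⟨h11, h19⟩, hp⟩, Finset.mem_filter.2 ⟨hx, hρ2⟩⟩⟩
          · rcases le_or_gt p P with hpP | hpP
            · apply Finset.mem_union_left
              apply Finset.mem_union_left
              apply Finset.mem_union_right
              exact Finset.mem_biUnion.2 ⟨p, mem_Pr.2 ⟨⟨h19, hpP⟩, hp⟩,
                Finset.mem_filter.2 ⟨hx, ⟨hg, hpv⟩, hcop⟩⟩
            · apply Finset.mem_union_left
              apply Finset.mem_union_right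
              exact Finset.mem_filter.2 ⟨hx, p, hp, hpP, hg⟩
    · -- T1
      apply Finset.mem_union_left
      apply Finset.mem_union_left
      apply Finset.mem_union_left
      apply Finset.mem_union_left
      apply Finset.mem_union_left
      apply Finset.mem_union_left
      obtain ⟨p, hp, h1, h2⟩ := Nat.Prime.not_coprime_iff_dvd.1 hcop
      refine Finset.mem_biUnion.2 ⟨p, mem_Pr.2 ⟨⟨?_, ?_⟩, hp⟩, Finset.mem_filter.2 ⟨hx, h1, h2⟩⟩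
      · by_contra hpW
        push Not at hpW
        have h3 := hQW' p hp hpW
        unfold sx at h1
        have h4 : p ∣ 1 := (Nat.dvd_add_left (Dvd.dvd.mul_right h3 _)).1 h1
        exact hp.one_lt.ne' (Nat.dvd_one.1 h4)
      · have h3 := Nat.le_of_dvd (hsxpos x) h1
        omega
  -- counts
  have hcard := Finset.card_le_card hcov
  have hfS : ∀ l, T ≤ l → l < T + T → f l ≤ S := by
    intro l h1 h2
    have hx : ((0 : ℕ), l) ∈ Bx 0 T I T := mem_Bx.2 ⟨⟨le_refl _, by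
      simp only
      have : 0 < I := Nat.mul_pos (by omega) (pow_pos hn0 12)
      omega⟩, h1, h2⟩
    have := (hR _ hx).2.1
    unfold sx at this
    simp only at this
    have h3 : f l ≤ Q * (f l + 0) := by
      rw [add_zero]; exact Nat.le_mul_of_pos_left _ hQ
    omega
  have u1 : (((Pr W (n ^ 31)).biUnion T1).card : ℝ) ≤
      I * T / W + (I + T) * (1 + Real.log ((n ^ 31 : ℕ) : ℝ)) + ((n ^ 31 : ℕ) : ℝ) := by
    have h1 : (((Pr W (n ^ 31)).biUnion T1).card : ℝ) ≤ ∑ p ∈ Pr W (n ^ 31), ((T1 p).card : ℝ) := by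
      exact_mod_cast Finset.card_biUnion_le
    refine h1.trans ((Finset.sum_le_sum fun p hp => ?_).trans (sum1 hW1 (n ^ 31) I T))
    obtain ⟨⟨g1, g2⟩, g3⟩ := mem_Pr.1 hp
    exact d1 f g3 (hQW p g3 g1)
  have u2 : (((Pr W (n ^ 16)).biUnion T2).card : ℝ) ≤
      I * T / W + I * ((n ^ 16 : ℕ) : ℝ) := by
    have h1 : (((Pr W (n ^ 16)).biUnion T2).card : ℝ) ≤ ∑ p ∈ Pr W (n ^ 16), ((T2 p).card : ℝ) := by
      exact_mod_cast Finset.card_biUnion_le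
    refine h1.trans ((Finset.sum_le_sum fun p hp => ?_).trans (sum2 hW1 (n ^ 16) I T))
    obtain ⟨⟨g1, g2⟩, g3⟩ := mem_Pr.1 hp
    exact d2 g3 (hQW p g3 g1)
  have u3 : (((Pr W (n ^ 11)).biUnion T3).card : ℝ) ≤
      3 * (I * T / W + T * ((n ^ 11 : ℕ) : ℝ)) := by
    have h1 : (((Pr W (n ^ 11)).biUnion T3).card : ℝ) ≤ ∑ p ∈ Pr W (n ^ 11), ((T3 p).card : ℝ) := by
      exact_mod_cast Finset.card_biUnion_le
    refine h1.trans ((Finset.sum_le_sum fun p hp => ?_).trans (sum3 hW1 (n ^ 11) I T))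
    obtain ⟨⟨g1, g2⟩, g3⟩ := mem_Pr.1 hp
    have := d3 (A := A) (B := B) (Q := Q) (a := a) (l0 := T) (I := I) (T := T) f
      g3 (hQW p g3 g1) (hdisc p g3 g1)
    exact this
  have u4 : (((Pr (n ^ 11) (n ^ 19)).biUnion T3r).card : ℝ) ≤
      3 * (8 * ((T : ℝ) + S + I) * I * D ^ 2 / (n : ℝ) ^ 3 +
        (8 * ((T : ℝ) + S + I) + 2 * I) * D * (n : ℝ) ^ 7) *
        (1 + Real.log ((n ^ 19 : ℕ) : ℝ)) + 6 * ((n ^ 19 : ℕ) : ℝ) := by
    have h1 : (((Pr (n ^ 11) (n ^ 19)).biUnion T3r).card : ℝ) ≤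
        ∑ p ∈ Pr (n ^ 11) (n ^ 19), ((T3r p).card : ℝ) := by
      exact_mod_cast Finset.card_biUnion_le
    refine h1.trans ((Finset.sum_le_sum fun p hp => ?_).trans
      (sum4 (Nat.one_le_pow _ _ hn0) (by positivity)))
    obtain ⟨⟨g1, g2⟩, g3⟩ := mem_Pr.1 hp
    obtain ⟨Δ, e1, e2, e2b, e3⟩ := GF.delta (U := (T : ℝ) + S + I) (I := I) hC hQ hn1 hD g1 g2
      (by positivity) (by positivity)
    refine le_trans ?_ e3
    exact d4r hRt hQ hf hfS g3 (hQW p g3 (lt_of_le_of_lt hWn11 g1))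
      (hdisc p g3 (lt_of_le_of_lt hWn11 g1)) (Finset.filter_subset _ _)
      (fun x hx => (Finset.mem_filter.1 hx).2) e1 e2 e2b
  have u4b : (((Pr (n ^ 19) P).biUnion T4).card : ℝ) ≤
      3 * ((S : ℝ) ^ 2 / ((n ^ 19 : ℕ) : ℝ) + (P : ℝ)) := by
    have h1 : (((Pr (n ^ 19) P).biUnion T4).card : ℝ) ≤
        ∑ p ∈ Pr (n ^ 19) P, ((T4 p).card : ℝ) := by
      exact_mod_cast Finset.card_biUnion_le
    refine h1.trans ((Finset.sum_le_sum fun p hp => ?_).trans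
      (sum4b (Nat.one_le_pow _ _ hn0) P S))
    obtain ⟨⟨g1, g2⟩, g3⟩ := mem_Pr.1 hp
    refine d4b (A := A) (B := B) (a := a) (f := f) (l0 := T) (I := I) (T := T) hQ hSpos g3 (hdisc p g3 ((hWn11.trans h1119).trans_lt g1))
      (Finset.filter_subset _ _) ?_ ?_ ?_
    · intro x hx
      obtain ⟨_, k1, k2, _, _⟩ := hR x (Finset.mem_filter.1 hx).1
      exact ⟨k1, k2⟩
    · intro x hx
      exact (Finset.mem_filter.1 hx).2.1
    · intro x hx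
      exact (Finset.mem_filter.1 hx).2.2
  have hE : 0 < T := Nat.mul_pos (by omega) (pow_pos hn0 30)
  have u5 : (T5.card : ℝ) ≤ T * (126 * ((n : ℝ) ^ 5 * ((I : ℝ) / ((12600 * n ^ 5 : ℕ) : ℝ)) +
      (n : ℝ) ^ 6)) := by
    apply e5 hQ (Nat.mul_pos (by norm_num) (pow_pos hn0 5)) hE (fun x hx => (hR x hx).1)
    · calc 100 * (Q * I) = (100 * Q * C1) * n ^ 12 := by rw [hI]; ring
        _ ≤ n * n ^ 12 := Nat.mul_le_mul_right _ hnQ2
        _ = n ^ 13 := by ring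
        _ ≤ n ^ 30 := Nat.pow_le_pow_right hn0 (by norm_num)
        _ ≤ T := Nat.le_mul_of_pos_left _ (by omega)
    · calc 3 * (Q * (12600 * n ^ 5)) ^ 6 = (3 * (Q * 12600) ^ 6) * n ^ 30 := by ring
        _ < K0 * n ^ 30 := Nat.mul_lt_mul_of_pos_right hK0 (pow_pos hn0 30)
    · intro x hx
      obtain ⟨⟨_, r2, r3⟩, _, _, _, hS3⟩ := hR x hx
      obtain ⟨g1, g2⟩ := gz_bounds (hsxpos x) r2 r3
      refine ⟨g1, lt_of_le_of_lt g2 ?_⟩
      exact_mod_cast hS3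
  have u6 : ((Rt.biUnion fun ρ => (Pr (n ^ 11) (n ^ 19)).biUnion (T6 ρ)).card : ℝ) ≤
      (Rt.card : ℕ) * (2 * S * (1 / ((n ^ 11 : ℕ) : ℝ)) * (I + 1)) := by
    have h1 : ((Rt.biUnion fun ρ => (Pr (n ^ 11) (n ^ 19)).biUnion (T6 ρ)).card : ℝ) ≤
        ∑ ρ ∈ Rt, (((Pr (n ^ 11) (n ^ 19)).biUnion (T6 ρ)).card : ℝ) := by
      exact_mod_cast Finset.card_biUnion_le
    refine h1.trans ?_
    rw [← nsmul_eq_mul]
    apply Finset.sum_le_card_nsmul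
    intro ρ hρ
    have h2 : (((Pr (n ^ 11) (n ^ 19)).biUnion (T6 ρ)).card : ℝ) ≤
        ∑ p ∈ Pr (n ^ 11) (n ^ 19), ((T6 ρ p).card : ℝ) := by
      exact_mod_cast Finset.card_biUnion_le
    refine h2.trans ((Finset.sum_le_sum fun p hp => ?_).trans
      (sum6 (Nat.one_le_pow _ _ hn0) (n ^ 19) (c := (I : ℝ) + 1) (by positivity) (S : ℝ)
        (Nat.cast_nonneg _)))
    obtain ⟨⟨g1, g2⟩, g3⟩ := mem_Pr.1 hp
    exact d6 hQ hf0 (hRc ρ hρ) g3.pos (fun x hx => ⟨(hR x hx).2.1, (hR x hx).2.2.2.1⟩)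
  have hcard2 : (((Bx 0 T I T).filter fun x => ¬ GoodT A B 0 Q a W (f x.2 + x.1, x.2)).card : ℝ) ≤
      (((((((Pr W (n ^ 31)).biUnion T1).card : ℝ) +
      (((Pr W (n ^ 16)).biUnion T2).card : ℝ)) + (((Pr W (n ^ 11)).biUnion T3).card : ℝ)) +
      (((Pr (n ^ 11) (n ^ 19)).biUnion T3r).card : ℝ) + (((Pr (n ^ 19) P).biUnion T4).card : ℝ)) +
      (T5.card : ℝ)) +
      ((Rt.biUnion fun ρ => (Pr (n ^ 11) (n ^ 19)).biUnion (T6 ρ)).card : ℝ) := by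
    have k00 := Finset.card_union_le ((((((Pr W (n ^ 31)).biUnion T1 ∪
      (Pr W (n ^ 16)).biUnion T2) ∪
      (Pr W (n ^ 11)).biUnion T3) ∪ (Pr (n ^ 11) (n ^ 19)).biUnion T3r) ∪
      (Pr (n ^ 19) P).biUnion T4) ∪ T5)
      (Rt.biUnion fun ρ => (Pr (n ^ 11) (n ^ 19)).biUnion (T6 ρ))
    have k0 := Finset.card_union_le (((((Pr W (n ^ 31)).biUnion T1 ∪ (Pr W (n ^ 16)).biUnion T2) ∪
      (Pr W (n ^ 11)).biUnion T3) ∪ (Pr (n ^ 11) (n ^ 19)).biUnion T3r) ∪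
      (Pr (n ^ 19) P).biUnion T4) T5
    have k1 := Finset.card_union_le ((((Pr W (n ^ 31)).biUnion T1 ∪ (Pr W (n ^ 16)).biUnion T2) ∪
      (Pr W (n ^ 11)).biUnion T3) ∪ (Pr (n ^ 11) (n ^ 19)).biUnion T3r) ((Pr (n ^ 19) P).biUnion T4)
    have k2 := Finset.card_union_le (((Pr W (n ^ 31)).biUnion T1 ∪ (Pr W (n ^ 16)).biUnion T2) ∪
      (Pr W (n ^ 11)).biUnion T3) ((Pr (n ^ 11) (n ^ 19)).biUnion T3r)
    have k3 := Finset.card_union_le ((Pr W (n ^ 31)).biUnion T1 ∪ (Pr W (n ^ 16)).biUnion T2)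
      ((Pr W (n ^ 11)).biUnion T3)
    have k4 := Finset.card_union_le ((Pr W (n ^ 31)).biUnion T1) ((Pr W (n ^ 16)).biUnion T2)
    have k5 : ((Bx 0 T I T).filter fun x => ¬ GoodT A B 0 Q a W (f x.2 + x.1, x.2)).card ≤
      ((((((Pr W (n ^ 31)).biUnion T1).card + ((Pr W (n ^ 16)).biUnion T2).card) +
      ((Pr W (n ^ 11)).biUnion T3).card) + ((Pr (n ^ 11) (n ^ 19)).biUnion T3r).card +
      ((Pr (n ^ 19) P).biUnion T4).card) + T5.card) +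
      (Rt.biUnion fun ρ => (Pr (n ^ 11) (n ^ 19)).biUnion (T6 ρ)).card := by
      omega
    exact_mod_cast k5
  have hnum := GF.numer (W := W) (n := n) (K0 := K0) (K2 := K2) (C1 := C1) (CS := CS)
    (κ := Rt.card) (D := D) hW
    hD0.le hn1 hK01 hC1 hC1pos (hN1.trans (by exact_mod_cast hnN)) (I := (I : ℝ)) (T := (T : ℝ))
    (S := (S : ℝ)) (P := (P : ℝ)) (by rw [hI]; push_cast; ring) (by rw [hT]; push_cast; ring)
    (by rw [hS]; push_cast; ring) (by rw [hP]; push_cast; ring)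
  have e31 : ((n ^ 31 : ℕ) : ℝ) = (n : ℝ) ^ 31 := by push_cast; ring
  have e16 : ((n ^ 16 : ℕ) : ℝ) = (n : ℝ) ^ 16 := by push_cast; ring
  have e11 : ((n ^ 11 : ℕ) : ℝ) = (n : ℝ) ^ 11 := by push_cast; ring
  have e19 : ((n ^ 19 : ℕ) : ℝ) = (n : ℝ) ^ 19 := by push_cast; ring
  have e5' : ((12600 * n ^ 5 : ℕ) : ℝ) = 12600 * (n : ℝ) ^ 5 := by push_cast; ring
  rw [e31] at u1 hnum
  rw [e16] at u2
  rw [e11] at u3 u6
  rw [e19] at u4 u4b hnum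
  rw [e5'] at u5
  linarith

end Pool.Agent.TH827.GF
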