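import Mathlib
import Pool.Agent.TH827.GE.Par
import Pool.Agent.TH827.GF.Comb

/-! The slope of the strip. -/

set_option autoImplicit false

namespace Pool.Agent.TH827.GF

open Pool.Agent.TH562.TW Pool.Agent.TH827.GE

/-- the form grows in a direction of negative slope -/
lemma F4c {A B R V S c s v t : ℝ} (hR : 1 ≤ R) (hA : 100 * |A| ≤ R ^ 2) (hB : 100 * |B| ≤ R ^ 3)
    (hV : 0 < V) (hS : S = 6 * R * V) (hc0 : 0 ≤ c) (hc : 100 * c ≤ R) (hv0 : V ≤ v)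
    (ht : 0 ≤ t) (hv : v + t ≤ 3 * V) (hs : S / 2 ≤ s) :
    FR A B s v ≤ FR A B (s - c * t) (v + t) := by
  have hv00 : 0 ≤ v := by linarith
  have hS0 : 0 < S := by rw [hS]; positivity
  have hs0 : 0 < s := by linarith
  set v' : ℝ := v + t with hv'
  have hv'0 : 0 ≤ v' := by linarith
  have hvv : v ≤ v' := by linarith
  have hRV : 0 < R * V := by positivity
  unfold FR
  have e : v' * ((s - c * t) ^ 3 + A * (s - c * t) * v' ^ 2 + B * v' ^ 3) -
      v * (s ^ 3 + A * s * v ^ 2 + B * v ^ 3) =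
      t * (s ^ 3 - 3 * c * s ^ 2 * v' + (s * (A * (v' ^ 2 + v' * v + v ^ 2)) - A * (c * v' ^ 3)) +
        B * (v' ^ 3 + v' ^ 2 * v + v' * v ^ 2 + v ^ 3)) +
      v' * (c * t) ^ 2 * (3 * s - c * t) := by
    have : v' - v = t := by rw [hv']; ring
    rw [← this]; ring
  have q1' : 0 ≤ v' ^ 2 + v' * v + v ^ 2 := by positivity
  have q2' : 0 ≤ v' ^ 3 + v' ^ 2 * v + v' * v ^ 2 + v ^ 3 := by positivity
  have q1 : v' ^ 2 + v' * v + v ^ 2 ≤ 3 * (3 * V) ^ 2 := by nlinarith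
  have q2 : v' ^ 3 + v' ^ 2 * v + v' * v ^ 2 + v ^ 3 ≤ 4 * (3 * V) ^ 3 := by
    have r1 : v' ^ 3 ≤ (3 * V) ^ 3 := pow_le_pow_left₀ hv'0 hv 3
    have r2 : v' ^ 2 * v ≤ (3 * V) ^ 3 := by
      calc v' ^ 2 * v ≤ (3 * V) ^ 2 * (3 * V) :=
            mul_le_mul (pow_le_pow_left₀ hv'0 hv 2) (by linarith) hv00 (by positivity)
        _ = _ := by ring
    have r3 : v' * v ^ 2 ≤ (3 * V) ^ 3 := by
      calc v' * v ^ 2 ≤ (3 * V) * (3 * V) ^ 2 :=
            mul_le_mul hv (pow_le_pow_left₀ hv00 (by linarith) 2) (by positivity) (by positivity)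
        _ = _ := by ring
    have r4 : v ^ 3 ≤ (3 * V) ^ 3 := pow_le_pow_left₀ hv00 (by linarith) 3
    linarith
  have a1 : -(3 * (S ^ 2 / 400)) ≤ A * (v' ^ 2 + v' * v + v ^ 2) := by
    have h : |A * (v' ^ 2 + v' * v + v ^ 2)| ≤ 3 * (S ^ 2 / 400) := by
      rw [abs_mul, abs_of_nonneg q1']
      calc |A| * (v' ^ 2 + v' * v + v ^ 2) ≤ (R ^ 2 / 100) * (3 * (3 * V) ^ 2) :=
            mul_le_mul (by linarith) q1 q1' (by positivity)
        _ = 3 * (S ^ 2 / 400) := by rw [hS]; ring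
    exact (abs_le.1 h).1
  have b1 : -(4 * (S ^ 3 / 800)) ≤ B * (v' ^ 3 + v' ^ 2 * v + v' * v ^ 2 + v ^ 3) := by
    have h : |B * (v' ^ 3 + v' ^ 2 * v + v' * v ^ 2 + v ^ 3)| ≤ 4 * (S ^ 3 / 800) := by
      rw [abs_mul, abs_of_nonneg q2']
      calc |B| * (v' ^ 3 + v' ^ 2 * v + v' * v ^ 2 + v ^ 3) ≤ (R ^ 3 / 100) * (4 * (3 * V) ^ 3) :=
            mul_le_mul (by linarith) q2 q2' (by positivity)
        _ = 4 * (S ^ 3 / 800) := by rw [hS]; ring
    exact (abs_le.1 h).1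
  have a3 : A * (c * v' ^ 3) ≤ S ^ 3 / 80000 := by
    have h0 : 0 ≤ c * v' ^ 3 := by positivity
    have h : |A * (c * v' ^ 3)| ≤ S ^ 3 / 80000 := by
      rw [abs_mul, abs_of_nonneg h0]
      calc |A| * (c * v' ^ 3) ≤ (R ^ 2 / 100) * ((R / 100) * (3 * V) ^ 3) := by
            apply mul_le_mul (by linarith) _ h0 (by positivity)
            exact mul_le_mul (by linarith) (pow_le_pow_left₀ hv'0 hv 3) (by positivity)
              (by positivity)
        _ = S ^ 3 / 80000 := by rw [hS]; ring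
    exact (abs_le.1 h).2
  have a2 : s * (-(3 * (S ^ 2 / 400))) ≤ s * (A * (v' ^ 2 + v' * v + v ^ 2)) :=
    mul_le_mul_of_nonneg_left a1 hs0.le
  have h1 : (S / 2) ^ 2 ≤ s ^ 2 := pow_le_pow_left₀ (by positivity) hs 2
  have h2 : (S / 2) ^ 3 ≤ s ^ 3 := pow_le_pow_left₀ (by positivity) hs 3
  have h3 : s * (S / 2) ^ 2 ≤ s * s ^ 2 := mul_le_mul_of_nonneg_left h1 hs0.le
  have hcv : c * v' ≤ S / 200 := by
    calc c * v' ≤ (R / 100) * (3 * V) := mul_le_mul (by linarith) hv hv'0 (by positivity)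
      _ = S / 200 := by rw [hS]; ring
  have hcv2 : 3 * c * s ^ 2 * v' ≤ 3 / 100 * s ^ 3 := by
    calc 3 * c * s ^ 2 * v' = 3 * s ^ 2 * (c * v') := by ring
      _ ≤ 3 * s ^ 2 * (S / 200) := mul_le_mul_of_nonneg_left hcv (by positivity)
      _ ≤ 3 * s ^ 2 * (s / 100) := mul_le_mul_of_nonneg_left (by linarith) (by positivity)
      _ = _ := by ring
  have hS3 : 0 < S ^ 3 := by positivity
  have hs3 : 0 < s ^ 3 := by positivity
  have hsS : s * (S ^ 2 / 400) ≤ s ^ 3 / 100 := by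
    have : s * (S / 2) ^ 2 = s * S ^ 2 / 4 := by ring
    have e3 : s * s ^ 2 = s ^ 3 := by ring
    rw [this, e3] at h3
    linarith
  have hS8 : S ^ 3 ≤ 8 * s ^ 3 := by
    have : (S / 2) ^ 3 = S ^ 3 / 8 := by ring
    linarith
  have h4 : 0 ≤ s ^ 3 - 3 * c * s ^ 2 * v' +
      (s * (A * (v' ^ 2 + v' * v + v ^ 2)) - A * (c * v' ^ 3)) +
        B * (v' ^ 3 + v' ^ 2 * v + v' * v ^ 2 + v ^ 3) := by
    linarith
  have h5 := mul_nonneg ht h4
  have hct : c * t ≤ 3 * s := by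
    have : t ≤ v' := by linarith
    have h6 : c * t ≤ c * v' := mul_le_mul_of_nonneg_left this hc0
    linarith
  have h6 : 0 ≤ v' * (c * t) ^ 2 * (3 * s - c * t) :=
    mul_nonneg (by positivity) (by linarith)
  linarith

end Pool.Agent.TH827.GF
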