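import Mathlib
import Pool.Agent.TH827.GF.Par
import Pool.Agent.TH562.TW.Arith

/-! Many pairs with values in `[X, X + C X^(17/20)]`. -/

set_option autoImplicit false

namespace Pool.Agent.TH827.GF

open Finset Pool.Agent.TH562.TW Pool.Agent.TH562.R2 Pool.Agent.TH827.GE

/-- the conclusion for one number `d` -/
def Tw1 (A B : ℤ) (M a d : ℕ) : Prop :=
  Squarefree d ∧ d ≡ a [MOD M] ∧
    {p : ℚ × ℚ | p.2 ^ 2 = p.1 ^ 3 + A * (d : ℚ) ^ 2 * p.1 + B * (d : ℚ) ^ 3}.Infinite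

theorem core {A B : ℤ}
    (hΔ : 4 * A ^ 3 + 27 * B ^ 2 ≠ 0) {M : ℕ} (hM : 0 < M) {a : ℕ} (ha : a.Coprime M) :
    ∃ (A' B' : ℤ) (Q a' : ℕ) (κ K5 c2 X0 : ℝ), 0 < Q ∧ 0 < a' ∧ 0 < κ ∧
      |(A' : ℝ)| * κ ^ 2 ≤ 1 / 4 ∧ |(B' : ℝ)| * κ ^ 3 ≤ 1 / 4 ∧ 0 < K5 ∧ 0 < c2 ∧ 1 ≤ X0 ∧
      ∀ X : ℝ, X0 ≤ X → ∃ G : Finset (ℕ × ℕ), c2 * X ^ ((7 : ℝ) / 20) ≤ (G.card : ℝ) ∧
        ∀ x ∈ G, ((a' + Q * x.2 : ℕ) : ℝ) ≤ κ * ((1 + Q * x.1 : ℕ) : ℝ) ∧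
          0 < PZ A' B' 0 (1 + Q * x.1) (a' + Q * x.2) ∧
          X ≤ (PZ A' B' 0 (1 + Q * x.1) (a' + Q * x.2) : ℝ) ∧
          (PZ A' B' 0 (1 + Q * x.1) (a' + Q * x.2) : ℝ) ≤ X + K5 * X ^ ((17 : ℝ) / 20) ∧
          ∃ d : ℕ, (d : ℤ) = PZ A' B' 0 (1 + Q * x.1) (a' + Q * x.2) ∧ Tw1 A B M a d := by
  classical
  obtain ⟨H₀, hH⟩ := infinite_points A B hΔ
  -- the modulus
  obtain ⟨W, hWdef⟩ : ∃ W : ℕ, W = M + (4 * A ^ 3 + 27 * B ^ 2).natAbs + 100 := ⟨_, rfl⟩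
  have hW100 : 100 ≤ W := by omega
  obtain ⟨Q, hQdef⟩ : ∃ Q : ℕ, Q = W.factorial := ⟨_, rfl⟩
  have hQ : 0 < Q := by rw [hQdef]; exact Nat.factorial_pos W
  have hQ' : (0 : ℝ) < Q := by exact_mod_cast hQ
  have hQ1 : (1 : ℝ) ≤ Q := by exact_mod_cast hQ
  have hMQ : M ∣ Q := by rw [hQdef]; exact Nat.dvd_factorial hM (by omega)
  have hQW : ∀ p : ℕ, p.Prime → W < p → ¬ p ∣ Q := by
    intro p hp hpW hd
    rw [hQdef] at hd
    have := (hp.dvd_factorial).1 hd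
    omega
  have hQW' : ∀ p : ℕ, p.Prime → p ≤ W → p ∣ Q := fun p hp hpW => by
    rw [hQdef]; exact (hp.dvd_factorial).2 hpW
  -- the residue class
  obtain ⟨a', ha'Q, ha'p, ha'M⟩ := Nat.forall_exists_prime_gt_and_modEq Q hM.ne' ha
  have ha'pos : 0 < a' := ha'p.pos
  have ha'cop : Nat.Coprime a' Q := by
    rw [Nat.Prime.coprime_iff_not_dvd ha'p]
    intro hd
    have := Nat.le_of_dvd hQ hd
    omega
  -- the form
  set A' : ℤ := A * Q ^ 4 with hA'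
  set B' : ℤ := B * Q ^ 6 with hB'
  -- the roots
  set Pol : Polynomial ℤ := Polynomial.X ^ 3 + (Polynomial.C A' * Polynomial.X + Polynomial.C B')
    with hPol
  have hPol0 : Pol ≠ 0 := by
    have hmonic : Pol.Monic := by
      rw [hPol]
      monicity!
    exact hmonic.ne_zero
  obtain ⟨Rt, hRt⟩ : ∃ Rt : Finset ℤ, ∀ ρ : ℤ, ρ ^ 3 + A' * ρ + B' = 0 → ρ ∈ Rt := by
    refine ⟨Pol.roots.toFinset, fun ρ hρ => ?_⟩
    rw [Multiset.mem_toFinset, Polynomial.mem_roots hPol0, Polynomial.IsRoot.def, hPol]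
    simp only [Polynomial.eval_add, Polynomial.eval_pow, Polynomial.eval_X, Polynomial.eval_mul,
      Polynomial.eval_C]
    linarith
  obtain ⟨cr, hcr⟩ : ∃ cr : ℕ, ∀ ρ ∈ Rt, |ρ| + 1 ≤ (cr : ℤ) := by
    refine ⟨∑ ρ ∈ Rt, (|ρ| + 1).toNat, fun ρ hρ => ?_⟩
    have h1 : (|ρ| + 1).toNat ≤ ∑ ρ ∈ Rt, (|ρ| + 1).toNat :=
      Finset.single_le_sum (f := fun ρ : ℤ => (|ρ| + 1).toNat) (fun _ _ => Nat.zero_le _) hρ
    have h2 := Int.self_le_toNat (|ρ| + 1)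
    have h3 : (((|ρ| + 1).toNat : ℕ) : ℤ) ≤ ((∑ ρ ∈ Rt, (|ρ| + 1).toNat : ℕ) : ℤ) := by
      exact_mod_cast h1
    linarith
  have hdisc : ∀ p : ℕ, p.Prime → W < p → ¬ (p : ℤ) ∣ 4 * A' ^ 3 + 27 * B' ^ 2 := by
    intro p hp hpW hd
    have hpZ : Prime (p : ℤ) := Nat.prime_iff_prime_int.1 hp
    have e : 4 * A' ^ 3 + 27 * B' ^ 2 = (Q : ℤ) ^ 12 * (4 * A ^ 3 + 27 * B ^ 2) := by
      rw [hA', hB']; ring
    rw [e] at hd
    rcases hpZ.dvd_or_dvd hd with h | h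
    · have h1 := hpZ.dvd_of_dvd_pow h
      exact hQW p hp hpW (Int.natCast_dvd_natCast.1 h1)
    · have h1 : p ∣ (4 * A ^ 3 + 27 * B ^ 2).natAbs := Int.natCast_dvd.1 h
      have h2 := Nat.le_of_dvd (Int.natAbs_pos.2 hΔ) h1
      omega
  -- the constants
  obtain ⟨R0, hR0⟩ := exists_nat_ge (100 * |(A' : ℝ)| + 100 * |(B' : ℝ)| + 1 + 100 * cr)
  have hAa := abs_nonneg (A' : ℝ)
  have hBa := abs_nonneg (B' : ℝ)
  have hcr0 : (0 : ℝ) ≤ cr := Nat.cast_nonneg _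
  have hR1 : (1 : ℝ) ≤ R0 := by linarith
  have hRc : 100 * (cr : ℝ) ≤ R0 := by linarith
  have hR2 : (R0 : ℝ) ≤ (R0 : ℝ) ^ 2 := le_self_pow₀ hR1 (by norm_num)
  have hR3 : (R0 : ℝ) ≤ (R0 : ℝ) ^ 3 := le_self_pow₀ hR1 (by norm_num)
  have hRA : 100 * |(A' : ℝ)| ≤ (R0 : ℝ) ^ 2 := by linarith
  have hRB : 100 * |(B' : ℝ)| ≤ (R0 : ℝ) ^ 3 := by linarith
  have hR0pos : 1 ≤ R0 := by exact_mod_cast hR1
  obtain ⟨K0, hK0⟩ : ∃ K0 : ℕ, K0 = 3 * (Q * 12600) ^ 6 + 1 := ⟨_, rfl⟩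
  obtain ⟨s0, hs0⟩ : ∃ s0 : ℕ, s0 = 6 * R0 * (Q * K0) := ⟨_, rfl⟩
  obtain ⟨CS, hCS⟩ : ∃ CS : ℕ, CS = 2 * s0 := ⟨_, rfl⟩
  obtain ⟨K2, hK2⟩ : ∃ K2 : ℕ, K2 = 16 * s0 ^ 3 + 1 := ⟨_, rfl⟩
  obtain ⟨C1, hC1⟩ : ∃ C1 : ℕ, C1 = 300 * K2 := ⟨_, rfl⟩
  have hK01 : 1 ≤ K0 := by omega
  have hQK : 1 ≤ Q * K0 := Nat.mul_pos hQ hK01
  have hs01 : 6 ≤ s0 := by
    rw [hs0]
    calc 6 = 6 * 1 * 1 := by norm_num
      _ ≤ 6 * R0 * (Q * K0) := Nat.mul_le_mul (Nat.mul_le_mul_left _ hR0pos) hQK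
  obtain ⟨N, hN⟩ := strip_good (A := A') (B := B') (Q := Q) (a := a') (W := W) (K0 := K0)
    (K2 := K2) (C1 := C1) (CS := CS) (c := cr) (Rt := Rt) hRt hcr hQ ha'pos hW100 hQW hQW' hdisc
    (by omega) (by omega) (by omega) (by omega)
  obtain ⟨N2, hN2⟩ : ∃ N2 : ℕ, N2 = N + a' + Q + Q * C1 + H₀.toNat + 250 := ⟨_, rfl⟩
  obtain ⟨c, hc⟩ : ∃ c : ℝ, c = ((Q * K0 : ℕ) : ℝ) * ((s0 : ℕ) : ℝ) ^ 3 := ⟨_, rfl⟩
  have hQK' : (1 : ℝ) ≤ ((Q * K0 : ℕ) : ℝ) := by exact_mod_cast hQK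
  have hs0' : (6 : ℝ) ≤ (s0 : ℝ) := by exact_mod_cast hs01
  have hc1 : 1 ≤ c := by
    rw [hc]
    have : (1 : ℝ) ≤ (s0 : ℝ) ^ 3 := one_le_pow₀ (by linarith only [hs0'])
    exact one_le_mul_of_one_le_of_one_le hQK' this
  have hc0 : 0 < c := by linarith
  obtain ⟨K5, hK5⟩ : ∃ K5 : ℝ, K5 = 40 * ((Q * K0 : ℕ) : ℝ) * (s0 : ℝ) ^ 2 * (Q * C1) := ⟨_, rfl⟩
  have hC1pos : (0 : ℝ) < C1 := by
    have : 0 < C1 := by omega
    exact_mod_cast this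
  have hK5pos : 0 < K5 := by rw [hK5]; positivity
  have hR00 : (0 : ℝ) < R0 := by linarith
  refine ⟨A', B', Q, a', 1 / R0, K5, 1 / 2 * (1 / (2 * c)) ^ ((7 : ℝ) / 20),
    c * ((N2 : ℝ) + 1) ^ 120, hQ, ha'pos, by positivity, ?_, ?_, hK5pos, by positivity, ?_, ?_⟩
  · have : (1 / (R0 : ℝ)) ^ 2 = 1 / (R0 : ℝ) ^ 2 := by rw [one_div_pow]
    rw [this, mul_one_div, div_le_iff₀ (by positivity)]
    linarith
  · have : (1 / (R0 : ℝ)) ^ 3 = 1 / (R0 : ℝ) ^ 3 := by rw [one_div_pow]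
    rw [this, mul_one_div, div_le_iff₀ (by positivity)]
    linarith
  · have : (1 : ℝ) ≤ ((N2 : ℝ) + 1) ^ 120 := one_le_pow₀ (by
      have : (0 : ℝ) ≤ N2 := Nat.cast_nonneg _
      linarith only [this])
    exact one_le_mul_of_one_le_of_one_le hc1 this
  intro X hX
  obtain ⟨n, hnN2, hcX, hXc⟩ := choose_n hc0 (N := N2) (by omega) hX
  have hX0 : 0 < X := lt_of_lt_of_le (by positivity) hX
  have hn1 : 1 ≤ n := by omega
  have hn0 : 0 < n := by omega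
  have hnr : (1 : ℝ) ≤ n := by exact_mod_cast hn1
  have hnr0 : (0 : ℝ) < n := by linarith
  -- scales
  obtain ⟨V, hV⟩ : ∃ V : ℝ, V = ((Q * K0 : ℕ) : ℝ) * (n : ℝ) ^ 30 := ⟨_, rfl⟩
  obtain ⟨S, hS⟩ : ∃ S : ℝ, S = 6 * (R0 : ℝ) * V := ⟨_, rfl⟩
  have hV0 : 0 < V := by rw [hV]; positivity
  have hS0 : 0 < S := by rw [hS]; positivity
  have hVS : V * S ^ 3 = c * (n : ℝ) ^ 120 := by
    rw [hS, hV, hc, hs0]; push_cast; ring
  have hSs : S = (s0 : ℝ) * (n : ℝ) ^ 30 := by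
    rw [hS, hV, hs0]; push_cast; ring
  rw [← hVS] at hcX hXc
  set T : ℕ := K0 * n ^ 30 with hT
  set I : ℕ := C1 * n ^ 12 with hI
  have hn30 : (n : ℝ) ≤ (n : ℝ) ^ 30 := le_self_pow₀ hnr (by norm_num)
  have hQT : (Q : ℝ) * T = V := by rw [hT, hV]; push_cast; ring
  have hvr : ∀ l : ℕ, T ≤ l → l < T + T → V ≤ ((a' + Q * l : ℕ) : ℝ) ∧
      ((a' + Q * l : ℕ) : ℝ) ≤ 3 * V := by
    intro l h1 h2
    have h1' : (T : ℝ) ≤ l := by exact_mod_cast h1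
    have h2' : (l : ℝ) ≤ T + T := by exact_mod_cast h2.le
    have ha'n : (a' : ℝ) ≤ n := by
      have : a' ≤ n := by omega
      exact_mod_cast this
    have ha'V : (a' : ℝ) ≤ V := by
      have : (n : ℝ) ^ 30 ≤ V := by
        rw [hV]; exact le_mul_of_one_le_left (by positivity) hQK'
      linarith
    have h3 : (Q : ℝ) * T ≤ Q * l := mul_le_mul_of_nonneg_left h1' hQ'.le
    have h4 : (Q : ℝ) * l ≤ Q * (T + T) := mul_le_mul_of_nonneg_left h2' hQ'.le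
    have h5 : (0 : ℝ) ≤ a' := Nat.cast_nonneg _
    push_cast
    constructor
    · linarith
    · have : (Q : ℝ) * (T + T) = 2 * V := by rw [← hQT]; ring
      linarith
  -- the function f
  set f : ℕ → ℕ := fun l => sInf {i : ℕ | X ≤ FR A' B' ((1 + Q * i : ℕ) : ℝ)
    ((a' + Q * l : ℕ) : ℝ)} with hf
  obtain ⟨i1, hi1⟩ : ∃ i1 : ℕ, i1 = ⌈3 * S / 2 / Q⌉₊ := ⟨_, rfl⟩
  have hi1a : 3 * S / 2 ≤ ((1 + Q * i1 : ℕ) : ℝ) := by
    have h1 : 3 * S / 2 / Q ≤ i1 := by rw [hi1]; exact Nat.le_ceil _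
    rw [div_le_iff₀ hQ'] at h1
    push_cast
    linarith
  have hi1b : ((1 + Q * i1 : ℕ) : ℝ) ≤ 3 * S / 2 + Q + 1 := by
    have h1 : (i1 : ℝ) < 3 * S / 2 / Q + 1 := by rw [hi1]; exact Nat.ceil_lt_add_one (by positivity)
    have h2 : (i1 : ℝ) * Q < (3 * S / 2 / Q + 1) * Q := mul_lt_mul_of_pos_right h1 hQ'
    have h3 : (3 * S / 2 / Q + 1) * Q = 3 * S / 2 + Q := by field_simp
    push_cast
    linarith
  have hmem1 : ∀ l : ℕ, T ≤ l → l < T + T → i1 ∈ {i : ℕ | X ≤ FR A' B' ((1 + Q * i : ℕ) : ℝ)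
    ((a' + Q * l : ℕ) : ℝ)} := by
    intro l h1 h2
    obtain ⟨g1, g2⟩ := hvr l h1 h2
    have := F2 (A := (A' : ℝ)) (B := (B' : ℝ)) hR1 hRA hRB hV0 hS g1 g2 hi1a
    exact hXc.trans this
  have hfX : ∀ l : ℕ, T ≤ l → l < T + T → X ≤ FR A' B' ((1 + Q * f l : ℕ) : ℝ)
    ((a' + Q * l : ℕ) : ℝ) := by
    intro l h1 h2
    exact Nat.sInf_mem ⟨i1, hmem1 l h1 h2⟩
  have hfi1 : ∀ l : ℕ, T ≤ l → l < T + T → f l ≤ i1 := fun l h1 h2 => Nat.sInf_le (hmem1 l h1 h2)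
  have hflow : ∀ l : ℕ, T ≤ l → l < T + T → S / 2 < ((1 + Q * f l : ℕ) : ℝ) := by
    intro l h1 h2
    obtain ⟨g1, g2⟩ := hvr l h1 h2
    by_contra hcon
    push Not at hcon
    have h3 := F1 (A := (A' : ℝ)) (B := (B' : ℝ)) hR1 hRA hRB hV0 hS g1 g2 (Nat.cast_nonneg _) hcon
    have h4 := hfX l h1 h2
    linarith
  have hbig : (1 : ℝ) + Q + Q * I ≤ S / 2 := by
    have h1 : (1 : ℝ) + Q + Q * C1 ≤ n := by
      have : 1 + Q + Q * C1 ≤ n := by omega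
      exact_mod_cast this
    have h2 : (1 : ℝ) + Q + Q * I ≤ (1 + Q + Q * C1) * (n : ℝ) ^ 12 := by
      rw [hI]; push_cast
      have h3 : (1 : ℝ) ≤ (n : ℝ) ^ 12 := one_le_pow₀ hnr
      have h4 : (1 + (Q : ℝ)) * 1 ≤ (1 + (Q : ℝ)) * (n : ℝ) ^ 12 :=
        mul_le_mul_of_nonneg_left h3 (by positivity)
      linarith
    have h3 : (1 + (Q : ℝ) + Q * C1) * (n : ℝ) ^ 12 ≤ n * (n : ℝ) ^ 12 :=
      mul_le_mul_of_nonneg_right h1 (by positivity)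
    have h4 : (n : ℝ) * (n : ℝ) ^ 12 = (n : ℝ) ^ 13 := by ring
    have h5 : (n : ℝ) ^ 13 ≤ (n : ℝ) ^ 30 := pow_le_pow_right₀ hnr (by norm_num)
    have h6 : 6 * (n : ℝ) ^ 30 ≤ S := by
      rw [hSs]; exact mul_le_mul_of_nonneg_right hs0' (by positivity)
    linarith
  -- the points of the strip
  have hpts : ∀ x ∈ Bx 0 T I T, (T ≤ x.2 ∧ x.2 < T + T) ∧
      S / 2 < ((sx Q f x : ℕ) : ℝ) ∧ ((sx Q f x : ℕ) : ℝ) ≤ 2 * S ∧
      X ≤ FR A' B' ((sx Q f x : ℕ) : ℝ) ((vx Q a' x : ℕ) : ℝ) ∧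
      FR A' B' ((sx Q f x : ℕ) : ℝ) ((vx Q a' x : ℕ) : ℝ) ≤ X + 40 * V * S ^ 2 * (Q * I) := by
    intro x hx
    obtain ⟨⟨_, k1⟩, k2, k3⟩ := mem_Bx.1 hx
    rw [zero_add] at k1
    obtain ⟨g1, g2⟩ := hvr x.2 k2 k3
    have hlow := hflow x.2 k2 k3
    have hXf := hfX x.2 k2 k3
    have hup : ((1 + Q * f x.2 : ℕ) : ℝ) ≤ 3 * S / 2 + Q + 1 := by
      refine le_trans ?_ hi1b
      have : 1 + Q * f x.2 ≤ 1 + Q * i1 := Nat.add_le_add_left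
        (Nat.mul_le_mul_left _ (hfi1 x.2 k2 k3)) _
      exact_mod_cast this
    have hsx : ((sx Q f x : ℕ) : ℝ) = ((1 + Q * f x.2 : ℕ) : ℝ) + Q * x.1 := by
      unfold sx; push_cast; ring
    have hx1 : (x.1 : ℝ) ≤ I := by exact_mod_cast k1.le
    have hx1' : (x.1 : ℝ) + 1 ≤ I := by exact_mod_cast k1
    have hx10 : (0 : ℝ) ≤ x.1 := Nat.cast_nonneg _
    have hQx : (Q : ℝ) * x.1 ≤ Q * I := mul_le_mul_of_nonneg_left hx1 hQ'.le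
    have hQx0 : (0 : ℝ) ≤ (Q : ℝ) * x.1 := by positivity
    have hs2 : ((sx Q f x : ℕ) : ℝ) ≤ 2 * S := by rw [hsx]; linarith
    refine ⟨⟨k2, k3⟩, by rw [hsx]; linarith, hs2, ?_, ?_⟩
    · refine hXf.trans ?_
      exact F3 (A := (A' : ℝ)) (B := (B' : ℝ)) hR1 hRA hV0 hS g1 g2 hlow.le
        (by rw [hsx]; linarith)
    · -- the previous value
      have hfpos : 0 < f x.2 := by
        by_contra h0
        have h0' : f x.2 = 0 := by omega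
        rw [h0'] at hlow
        norm_num at hlow
        have : (0 : ℝ) ≤ (Q : ℝ) * I := by positivity
        linarith
      have hprev : FR A' B' ((1 + Q * (f x.2 - 1) : ℕ) : ℝ) ((a' + Q * x.2 : ℕ) : ℝ) < X := by
        have h1 : f x.2 - 1 ∉ {i : ℕ | X ≤ FR A' B' ((1 + Q * i : ℕ) : ℝ)
          ((a' + Q * x.2 : ℕ) : ℝ)} := Nat.notMem_of_lt_sInf (by
            show f x.2 - 1 < f x.2
            omega)
        simpa using h1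
      have hdiff : ((sx Q f x : ℕ) : ℝ) - ((1 + Q * (f x.2 - 1) : ℕ) : ℝ) = Q * (x.1 + 1) := by
        rw [hsx]
        have : ((f x.2 - 1 : ℕ) : ℝ) = (f x.2 : ℝ) - 1 := by
          rw [Nat.cast_sub hfpos]; norm_num
        push_cast
        rw [this]; ring
      have h5 := F5 (A := (A' : ℝ)) (B := (B' : ℝ)) (s := ((sx Q f x : ℕ) : ℝ))
        (s' := ((1 + Q * (f x.2 - 1) : ℕ) : ℝ)) hR1 hRA hV0 hS g1 g2 (Nat.cast_nonneg _)
        (by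
          have : (0 : ℝ) ≤ Q * ((x.1 : ℝ) + 1) := by positivity
          linarith) hs2
      rw [hdiff] at h5
      have h6 : 40 * V * S ^ 2 * (Q * ((x.1 : ℝ) + 1)) ≤ 40 * V * S ^ 2 * (Q * I) := by
        apply mul_le_mul_of_nonneg_left _ (by positivity)
        exact mul_le_mul_of_nonneg_left hx1' hQ'.le
      have h7 : ((vx Q a' x : ℕ) : ℝ) = ((a' + Q * x.2 : ℕ) : ℝ) := rfl
      rw [h7]
      linarith
  have hbad := hN n (by omega) f (by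
    -- slope
    intro l l' h1 h2 h3
    have h1' : T ≤ l' := h1.trans h2
    have h2' : l < T + T := lt_of_le_of_lt h2 h3
    have hXf := hfX l h1 h2'
    obtain ⟨g1, g2⟩ := hvr l h1 h2'
    obtain ⟨g1', g2'⟩ := hvr l' h1' h3
    have hll : ((l' - l : ℕ) : ℝ) = (l' : ℝ) - l := Nat.cast_sub h2
    have hll0 : (0 : ℝ) ≤ ((l' - l : ℕ) : ℝ) := Nat.cast_nonneg _
    have hv' : ((a' + Q * l : ℕ) : ℝ) + Q * ((l' - l : ℕ) : ℝ) = ((a' + Q * l' : ℕ) : ℝ) := by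
      rw [hll]; push_cast; ring
    have hF := F4c (A := (A' : ℝ)) (B := (B' : ℝ)) (c := (cr : ℝ))
      (s := ((1 + Q * f l : ℕ) : ℝ)) (v := ((a' + Q * l : ℕ) : ℝ)) (t := Q * ((l' - l : ℕ) : ℝ))
      hR1 hRA hRB hV0 hS hcr0 hRc g1 (by positivity) (by rw [hv']; exact g2') (hflow l h1 h2').le
    rw [hv'] at hF
    -- the shift is smaller than f l
    have hshift : cr * (l' - l) ≤ f l := by
      have k1 : (cr : ℝ) * (Q * ((l' - l : ℕ) : ℝ)) ≤ (R0 / 100) * (3 * V) := by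
        apply mul_le_mul (by linarith) _ (by positivity) (by positivity)
        have k3 : (0 : ℝ) ≤ ((a' + Q * l : ℕ) : ℝ) := Nat.cast_nonneg _
        linarith
      have k2 : (R0 : ℝ) / 100 * (3 * V) = S / 200 := by rw [hS]; ring
      have k3 := hflow l h1 h2'
      have k4 : (0 : ℝ) ≤ Q * I := by positivity
      have k5 : (Q : ℝ) * ((cr : ℝ) * ((l' - l : ℕ) : ℝ)) ≤ Q * (f l : ℝ) := by
        push_cast at k3
        have k7 : (Q : ℝ) * ((cr : ℝ) * ((l' - l : ℕ) : ℝ)) =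
          (cr : ℝ) * (Q * ((l' - l : ℕ) : ℝ)) := by ring
        rw [k7]
        linarith only [k1, k2, k3, k4, hbig, hQ1]
      have k6 := le_of_mul_le_mul_left k5 hQ'
      exact_mod_cast k6
    have hmem : f l - cr * (l' - l) ∈ {i : ℕ | X ≤ FR A' B' ((1 + Q * i : ℕ) : ℝ)
        ((a' + Q * l' : ℕ) : ℝ)} := by
      have e1 : ((1 + Q * (f l - cr * (l' - l)) : ℕ) : ℝ) =
          ((1 + Q * f l : ℕ) : ℝ) - cr * (Q * ((l' - l : ℕ) : ℝ)) := by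
        have : ((f l - cr * (l' - l) : ℕ) : ℝ) = (f l : ℝ) - cr * ((l' - l : ℕ) : ℝ) := by
          rw [Nat.cast_sub hshift]; push_cast; ring
        push_cast at this ⊢
        rw [this]; ring
      show X ≤ _
      rw [e1]
      exact hXf.trans hF
    have h5 : f l' ≤ f l - cr * (l' - l) := Nat.sInf_le hmem
    omega) (by
    intro x hx
    obtain ⟨⟨k2, k3⟩, hs1, hs2, _, _⟩ := hpts x hx
    obtain ⟨g1, g2⟩ := hvr x.2 k2 k3
    have hv00 : (0 : ℝ) ≤ ((a' + Q * x.2 : ℕ) : ℝ) := Nat.cast_nonneg _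
    have hbA := bA (A := (A' : ℝ)) hR1 hRA hV0 hS hv00 g2
    have hbB := bB (B := (B' : ℝ)) hR1 hRB hV0 hS hv00 g2
    have hs12 : (S / 2) ^ 2 ≤ ((sx Q f x : ℕ) : ℝ) ^ 2 := pow_le_pow_left₀ (by positivity) hs1.le 2
    have hs13 : (S / 2) ^ 3 ≤ ((sx Q f x : ℕ) : ℝ) ^ 3 := pow_le_pow_left₀ (by positivity) hs1.le 3
    have hS2 : 0 < S ^ 2 := by positivity
    have hS3 : 0 < S ^ 3 := by positivity
    refine ⟨⟨?_, ?_, ?_⟩, ?_, ?_, ?_, ?_⟩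
    · have h1 : (T : ℝ) ≤ ((sx Q f x : ℕ) : ℝ) := by
        have h2 : (T : ℝ) ≤ V := by
          rw [← hQT]; exact le_mul_of_one_le_left (Nat.cast_nonneg _) hQ1
        have h3 : V ≤ S / 2 := by
          rw [hS]
          have h4 : 1 * V ≤ R0 * V := mul_le_mul_of_nonneg_right hR1 hV0.le
          linarith only [h4, hV0]
        linarith
      exact_mod_cast h1
    · have h1 : 100 * |(A' : ℝ) * ((vx Q a' x : ℕ) : ℝ) ^ 2| ≤ ((sx Q f x : ℕ) : ℝ) ^ 2 := by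
        have e : ((vx Q a' x : ℕ) : ℝ) = ((a' + Q * x.2 : ℕ) : ℝ) := rfl
        rw [e]
        linarith
      exact_mod_cast h1
    · have h1 : 100 * |(B' : ℝ) * ((vx Q a' x : ℕ) : ℝ) ^ 3| ≤ ((sx Q f x : ℕ) : ℝ) ^ 3 := by
        have e : ((vx Q a' x : ℕ) : ℝ) = ((a' + Q * x.2 : ℕ) : ℝ) := rfl
        rw [e]
        linarith
      exact_mod_cast h1
    · have h1 : ((sx Q f x : ℕ) : ℝ) ≤ ((CS * n ^ 30 : ℕ) : ℝ) := by
        rw [hCS]; push_cast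
        rw [hSs] at hs2
        linarith
      exact_mod_cast h1
    · have h1 : ((vx Q a' x : ℕ) : ℝ) ≤ ((sx Q f x : ℕ) : ℝ) := by
        have e : ((vx Q a' x : ℕ) : ℝ) = ((a' + Q * x.2 : ℕ) : ℝ) := rfl
        rw [e]
        have h3 : 3 * V ≤ S / 2 := by
          rw [hS]
          have h4 : 1 * V ≤ R0 * V := mul_le_mul_of_nonneg_right hR1 hV0.le
          linarith only [h4]
        linarith
      exact_mod_cast h1
    · have h1 : (cr : ℝ) * ((vx Q a' x : ℕ) : ℝ) ≤ ((sx Q f x : ℕ) : ℝ) := by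
        have e : ((vx Q a' x : ℕ) : ℝ) = ((a' + Q * x.2 : ℕ) : ℝ) := rfl
        rw [e]
        have k1 : (cr : ℝ) * ((a' + Q * x.2 : ℕ) : ℝ) ≤ (R0 / 100) * (3 * V) :=
          mul_le_mul (by linarith) g2 hv00 (by positivity)
        have k2 : (R0 : ℝ) / 100 * (3 * V) = S / 200 := by rw [hS]; ring
        linarith
      exact_mod_cast h1
    · have h1 : 2 * ((sx Q f x : ℕ) : ℝ) ^ 3 < ((n ^ 6 * (K2 * n ^ 42) ^ 2 : ℕ) : ℝ) := by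
        have h2 : ((sx Q f x : ℕ) : ℝ) ^ 3 ≤ (2 * S) ^ 3 :=
          pow_le_pow_left₀ (Nat.cast_nonneg _) hs2 3
        have h3 : 2 * (2 * S) ^ 3 = 16 * (s0 : ℝ) ^ 3 * (n : ℝ) ^ 90 := by rw [hSs]; ring
        have h4 : ((n ^ 6 * (K2 * n ^ 42) ^ 2 : ℕ) : ℝ) = (K2 : ℝ) ^ 2 * (n : ℝ) ^ 90 := by
          push_cast; ring
        have h5 : 16 * (s0 : ℝ) ^ 3 < (K2 : ℝ) ^ 2 := by
          have e : (K2 : ℝ) = 16 * (s0 : ℝ) ^ 3 + 1 := by rw [hK2]; push_cast; ring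
          have h6 : 0 ≤ (s0 : ℝ) ^ 3 := by positivity
          have h7 : (16 * (s0 : ℝ) ^ 3 + 1) ^ 2 = 256 * ((s0 : ℝ) ^ 3) ^ 2 +
            32 * (s0 : ℝ) ^ 3 + 1 := by ring
          have h8 : 0 ≤ ((s0 : ℝ) ^ 3) ^ 2 := by positivity
          rw [e, h7]; linarith only [h6, h8]
        rw [h4]
        have h6 : 16 * (s0 : ℝ) ^ 3 * (n : ℝ) ^ 90 < (K2 : ℝ) ^ 2 * (n : ℝ) ^ 90 :=
          mul_lt_mul_of_pos_right h5 (by positivity)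
        linarith
      exact_mod_cast h1)
  -- the good pairs
  set G0 := (Bx 0 T I T).filter fun x => GoodT A' B' 0 Q a' W (f x.2 + x.1, x.2) with hG0
  have hG0card : 1 / 2 * ((I : ℝ) * T) ≤ (G0.card : ℝ) := by
    have h1 : G0.card + ((Bx 0 T I T).filter fun x =>
        ¬ GoodT A' B' 0 Q a' W (f x.2 + x.1, x.2)).card = (Bx 0 T I T).card :=
      Finset.card_filter_add_card_filter_not _
    rw [card_Bx] at h1
    have h2 : (G0.card : ℝ) + (((Bx 0 T I T).filter fun x =>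
        ¬ GoodT A' B' 0 Q a' W (f x.2 + x.1, x.2)).card : ℝ) = (I : ℝ) * T := by
      exact_mod_cast h1
    linarith
  set φ : ℕ × ℕ → ℕ × ℕ := fun x => (f x.2 + x.1, x.2) with hφ
  have hφinj : ∀ x ∈ G0, ∀ y ∈ G0, φ x = φ y → x = y := by
    intro x _ y _ hxy
    rw [hφ] at hxy
    simp only [Prod.mk.injEq] at hxy
    obtain ⟨h1, h2⟩ := hxy
    rw [h2] at h1
    exact Prod.ext (by omega) h2
  refine ⟨G0.image φ, ?_, ?_⟩
  · rw [Finset.card_image_of_injOn (fun x hx y hy h => hφinj x hx y hy h)]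
    refine le_trans ?_ hG0card
    have hnX : X / (2 * c) ≤ (n : ℝ) ^ 120 := by
      rw [div_le_iff₀ (by positivity)]
      rw [hVS] at hXc
      linarith
    have h1 : (X / (2 * c)) ^ ((7 : ℝ) / 20) ≤ ((n : ℝ) ^ 120) ^ ((7 : ℝ) / 20) :=
      Real.rpow_le_rpow (by positivity) hnX (by norm_num)
    have h2 : ((n : ℝ) ^ 120) ^ ((7 : ℝ) / 20) = (n : ℝ) ^ 42 := by
      rw [← Real.rpow_natCast, ← Real.rpow_mul hnr0.le, ← Real.rpow_natCast]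
      norm_num
    have h3 : (X / (2 * c)) ^ ((7 : ℝ) / 20) = (1 / (2 * c)) ^ ((7 : ℝ) / 20) *
        X ^ ((7 : ℝ) / 20) := by
      rw [← Real.mul_rpow (by positivity) hX0.le]
      congr 1
      ring
    rw [h2, h3] at h1
    have h4 : (n : ℝ) ^ 42 ≤ (I : ℝ) * T := by
      have e : (I : ℝ) * T = (C1 * K0) * (n : ℝ) ^ 42 := by
        rw [hI, hT]; push_cast; ring
      rw [e]
      have h5 : (1 : ℝ) ≤ (C1 : ℝ) * K0 := by
        have h6 : 1 ≤ C1 * K0 := Nat.mul_pos (by omega) hK01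
        exact_mod_cast h6
      exact le_mul_of_one_le_left (by positivity) h5
    linarith
  intro z hz
  obtain ⟨x, hxG, rfl⟩ := Finset.mem_image.1 hz
  obtain ⟨hx, hgood⟩ := Finset.mem_filter.1 hxG
  obtain ⟨⟨k2, k3⟩, hs1, hs2, hX1, hX2⟩ := hpts x hx
  obtain ⟨g1, g2⟩ := hvr x.2 k2 k3
  have hPZ : ((PZ A' B' 0 (1 + Q * (f x.2 + x.1)) (a' + Q * x.2) : ℤ) : ℝ) =
      FR A' B' ((sx Q f x : ℕ) : ℝ) ((vx Q a' x : ℕ) : ℝ) := PZ_FR A' B' _ _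
  have hpos : 0 < PZ A' B' 0 (1 + Q * (f x.2 + x.1)) (a' + Q * x.2) := by
    have : (0 : ℝ) < ((PZ A' B' 0 (1 + Q * (f x.2 + x.1)) (a' + Q * x.2) : ℤ) : ℝ) := by
      rw [hPZ]; linarith
    exact_mod_cast this
  obtain ⟨d, hd1, hd2, hd3, hd4⟩ := arith (A := A) (B := B) (M := M) (Q := Q) (W := W) (m := 0)
    (a := a) (a' := a') hQ hMQ (dvd_zero Q) ha'cop ha'M hQW' hH hgood hpos (by
      have h1 : (H₀.toNat : ℤ) < ((a' + Q * x.2 : ℕ) : ℤ) := by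
        have h2 : H₀.toNat < n := by omega
        have h3 : n ≤ T := by
          rw [hT]
          calc n ≤ n ^ 30 := Nat.le_self_pow (by norm_num) n
            _ ≤ K0 * n ^ 30 := Nat.le_mul_of_pos_left _ hK01
        have h4 : x.2 ≤ Q * x.2 := Nat.le_mul_of_pos_left _ hQ
        have h5 : H₀.toNat < a' + Q * x.2 := by omega
        exact_mod_cast h5
      have h2 := Int.self_le_toNat H₀
      linarith)
  refine ⟨?_, hpos, ?_, ?_, d, hd1, hd2, hd3, hd4⟩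
  · -- v ≤ κ s
    have e1 : ((1 + Q * (φ x).1 : ℕ) : ℝ) = ((sx Q f x : ℕ) : ℝ) := rfl
    have e2 : ((a' + Q * (φ x).2 : ℕ) : ℝ) = ((a' + Q * x.2 : ℕ) : ℝ) := rfl
    rw [e1, e2, one_div, inv_mul_eq_div, le_div_iff₀ hR00]
    have k4 : ((a' + Q * x.2 : ℕ) : ℝ) * R0 ≤ 3 * V * R0 :=
      mul_le_mul_of_nonneg_right g2 hR00.le
    have k5 : 3 * V * R0 = S / 2 := by rw [hS]; ring
    linarith
  · have e1 : ((PZ A' B' 0 (1 + Q * (φ x).1) (a' + Q * (φ x).2) : ℤ) : ℝ) =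
      FR A' B' ((sx Q f x : ℕ) : ℝ) ((vx Q a' x : ℕ) : ℝ) := PZ_FR A' B' _ _
    rw [e1]
    exact hX1
  · have e1 : ((PZ A' B' 0 (1 + Q * (φ x).1) (a' + Q * (φ x).2) : ℤ) : ℝ) =
      FR A' B' ((sx Q f x : ℕ) : ℝ) ((vx Q a' x : ℕ) : ℝ) := PZ_FR A' B' _ _
    rw [e1]
    refine hX2.trans ?_
    have hlen : 40 * V * S ^ 2 * (Q * I) = K5 * (n : ℝ) ^ 102 := by
      rw [hK5, hSs, hV, hI]; push_cast; ring
    rw [hlen]
    have hpow : (n : ℝ) ^ 102 ≤ X ^ ((17 : ℝ) / 20) := by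
      have h1 : (n : ℝ) ^ 120 ≤ X := by
        rw [hVS] at hcX
        have : (n : ℝ) ^ 120 ≤ c * (n : ℝ) ^ 120 := le_mul_of_one_le_left (by positivity) hc1
        linarith
      have h2 : ((n : ℝ) ^ 120) ^ ((17 : ℝ) / 20) ≤ X ^ ((17 : ℝ) / 20) :=
        Real.rpow_le_rpow (by positivity) h1 (by norm_num)
      have h3 : ((n : ℝ) ^ 120) ^ ((17 : ℝ) / 20) = (n : ℝ) ^ 102 := by
        rw [← Real.rpow_natCast, ← Real.rpow_mul hnr0.le, ← Real.rpow_natCast]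
        norm_num
      rw [h3] at h2
      exact h2
    have := mul_le_mul_of_nonneg_left hpow hK5pos.le
    linarith

end Pool.Agent.TH827.GF
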