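import Mathlib
import Pool.Agent.TH861.TW.Fam

set_option autoImplicit false

/-!
# Different values (after TH861/TW/Main)
-/

namespace Pool.Agent.TH827.GF

open Finset Filter Pool.Agent.TH562.TW Pool.Agent.TH861.TW

/-- the good pairs give many different values -/
theorem many_values {A B : ℤ} {Q a : ℕ} {κ : ℝ} (hQ : 0 < Q) (apos : 0 < a) (hκ : 0 < κ)
    (hA : |(A : ℝ)| * κ ^ 2 ≤ 1 / 4) (hB : |(B : ℝ)| * κ ^ 3 ≤ 1 / 4)
    (G : Finset (ℕ × ℕ)) (D : ℝ) (hG : ∀ x ∈ G, ((a + Q * x.2 : ℕ) : ℝ) ≤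
      κ * ((1 + Q * x.1 : ℕ) : ℝ) ∧
      0 < PZ A B 0 (1 + Q * x.1) (a + Q * x.2) ∧
      ((PZ A B 0 (1 + Q * x.1) (a + Q * x.2)).toNat.divisors.card : ℝ) ≤ D) :
    (G.card : ℝ) ≤
      (G.image fun x => (PZ A B 0 (1 + Q * x.1) (a + Q * x.2)).toNat).card * D := by
  classical
  refine card_fib G (fun x => (PZ A B 0 (1 + Q * x.1) (a + Q * x.2)).toNat) D ?_
  intro d hd
  obtain ⟨x0, hx0, hx0d⟩ := Finset.mem_image.1 hd
  refine le_trans ?_ (by rw [← hx0d]; exact (hG x0 hx0).2.2 : ((d.divisors.card : ℕ) : ℝ) ≤ D)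
  have h : (G.filter fun x => (PZ A B 0 (1 + Q * x.1) (a + Q * x.2)).toNat = d).card ≤
      d.divisors.card := by
    refine Finset.card_le_card_of_injOn (fun x => a + Q * x.2) ?_ ?_
    · intro x hx
      obtain ⟨hx1, hx2⟩ := Finset.mem_filter.1 hx
      have h1 := (hG x hx1).2.1
      have h3 : ((d : ℕ) : ℤ) = PZ A B 0 (1 + Q * x.1) (a + Q * x.2) := by
        rw [← hx2]; exact Int.toNat_of_nonneg h1.le
      rw [Finset.mem_coe, Nat.mem_divisors]
      constructor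
      · have : ((a + Q * x.2 : ℕ) : ℤ) ∣ ((d : ℕ) : ℤ) := by
          rw [h3, PZ_eq]; exact Dvd.intro _ rfl
        exact Int.natCast_dvd_natCast.1 this
      · intro h0
        rw [h0] at h3
        rw [← h3] at h1
        simp at h1
    · intro x hx y hy hxy
      obtain ⟨hx1, hx2⟩ := Finset.mem_filter.1 hx
      obtain ⟨hy1, hy2⟩ := Finset.mem_filter.1 hy
      simp only at hxy
      have ex : x.2 = y.2 := Nat.eq_of_mul_eq_mul_left hQ (by omega)
      have h1 := (hG x hx1).2.1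
      have h2 := (hG y hy1).2.1
      have h3 : PZ A B 0 (1 + Q * x.1) (a + Q * x.2) = PZ A B 0 (1 + Q * y.1) (a + Q * y.2) := by
        rw [← Int.toNat_of_nonneg h1.le, ← Int.toNat_of_nonneg h2.le, hx2, hy2]
      have h4 : fR A B ((a + Q * x.2 : ℕ) : ℝ) ((1 + Q * x.1 : ℕ) : ℝ) =
          fR A B ((a + Q * x.2 : ℕ) : ℝ) ((1 + Q * y.1 : ℕ) : ℝ) := by
        rw [← PZ_fR, h3, ← ex, PZ_fR]
      have hv0 : (0 : ℝ) < ((a + Q * x.2 : ℕ) : ℝ) := by
        have : 0 < a + Q * x.2 := by omega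
        exact_mod_cast this
      have h5 := fR_inj hκ hA hB hv0 (hG x hx1).1 (by rw [ex]; exact (hG y hy1).1) h4
      have h6 : 1 + Q * x.1 = 1 + Q * y.1 := by exact_mod_cast h5
      have h7 : x.1 = y.1 := Nat.eq_of_mul_eq_mul_left hQ (by omega)
      exact Prod.ext h7 ex
  exact_mod_cast h


end Pool.Agent.TH827.GF
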