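import Mathlib
import Pool.Agent.TH827.GF.Core
import Pool.Agent.TH827.GF.Val
import Pool.Agent.H510R2.Div

/-! Many twists in every interval `[X, X + H]` with `H ≥ C X^(17/20)`. -/

set_option autoImplicit false

namespace Pool.Agent.TH827.GF

open Finset Pool.Agent.TH562.TW

/-- powers of `X` beat constants -/
lemma rpow_big {δ : ℝ} (hδ : 0 < δ) (K : ℝ) : ∃ X0 : ℝ, 1 ≤ X0 ∧ ∀ X : ℝ, X0 ≤ X → K ≤ X ^ δ := by
  have h := (tendsto_rpow_atTop hδ).eventually_ge_atTop K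
  obtain ⟨X0, hX0⟩ := Filter.eventually_atTop.1 h
  exact ⟨max 1 X0, le_max_left _ _, fun X hX => hX0 X ((le_max_right _ _).trans hX)⟩

theorem base {A B : ℤ} (hΔ : 4 * A ^ 3 + 27 * B ^ 2 ≠ 0) {M : ℕ} (hM : 0 < M) {a : ℕ}
    (ha : a.Coprime M) :
    ∃ C : ℝ, 0 < C ∧ ∀ ε : ℝ, 0 < ε → ∃ X0 : ℝ, 1 ≤ X0 ∧ ∀ X : ℝ, X0 ≤ X →
      ∃ S : Finset ℕ, X ^ ((7 : ℝ) / 20 - ε) ≤ (S.card : ℝ) ∧ ∀ d ∈ S,
        X ≤ (d : ℝ) ∧ (d : ℝ) ≤ X + C * X ^ ((17 : ℝ) / 20) ∧ Tw1 A B M a d := by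
  classical
  obtain ⟨A', B', Q, a', κ, K5, c2, X1, hQ, ha', hκ, hAκ, hBκ, hK5, hc2, hX1, hcore⟩ :=
    core (A := A) (B := B) hΔ hM ha
  refine ⟨K5, hK5, fun ε hε => ?_⟩
  obtain ⟨Cd, hCd, hdiv⟩ := Pool.Agent.H510R2.divisor_bound (ε / 2) (by positivity)
  obtain ⟨X2, hX2, hbig⟩ := rpow_big (δ := ε / 2) (by positivity)
    (Cd * (1 + K5) ^ (ε / 2) / c2)
  refine ⟨max X1 X2, le_max_of_le_left hX1, fun X hX => ?_⟩
  have hXX1 : X1 ≤ X := (le_max_left _ _).trans hX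
  have hXX2 : X2 ≤ X := (le_max_right _ _).trans hX
  have hX1' : 1 ≤ X := hX1.trans hXX1
  have hX0 : 0 < X := by linarith
  obtain ⟨G, hG1, hG2⟩ := hcore X hXX1
  have hpowle : X ^ ((17 : ℝ) / 20) ≤ X := by
    have := Real.rpow_le_rpow_of_exponent_le hX1' (show ((17 : ℝ) / 20) ≤ 1 by norm_num)
    rwa [Real.rpow_one] at this
  set Dv : ℝ := Cd * ((1 + K5) * X) ^ (ε / 2) with hDv
  have hDv0 : 0 < Dv := by rw [hDv]; positivity
  have hmany := many_values (A := A') (B := B') (Q := Q) (a := a') hQ ha' hκ hAκ hBκ G Dv (by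
    intro x hx
    obtain ⟨g1, g2, g3, g4, _⟩ := hG2 x hx
    refine ⟨g1, g2, ?_⟩
    have h1 : 1 ≤ (PZ A' B' 0 (1 + Q * x.1) (a' + Q * x.2)).toNat := by omega
    refine (hdiv _ h1).trans ?_
    rw [hDv]
    refine mul_le_mul_of_nonneg_left ?_ hCd.le
    refine Real.rpow_le_rpow (by positivity) ?_ (by positivity)
    have h2 : (((PZ A' B' 0 (1 + Q * x.1) (a' + Q * x.2)).toNat : ℕ) : ℝ) =
        (PZ A' B' 0 (1 + Q * x.1) (a' + Q * x.2) : ℝ) := by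
      exact_mod_cast Int.toNat_of_nonneg g2.le
    rw [h2]
    refine g4.trans ?_
    have := mul_le_mul_of_nonneg_left hpowle hK5.le
    linarith)
  refine ⟨G.image fun x => (PZ A' B' 0 (1 + Q * x.1) (a' + Q * x.2)).toNat, ?_, ?_⟩
  · have h1 : c2 * X ^ ((7 : ℝ) / 20) ≤
        ((G.image fun x => (PZ A' B' 0 (1 + Q * x.1) (a' + Q * x.2)).toNat).card : ℝ) * Dv :=
      hG1.trans hmany
    have h2 : X ^ ((7 : ℝ) / 20 - ε) * Dv ≤ c2 * X ^ ((7 : ℝ) / 20) := by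
      have e1 : ((1 + K5) * X) ^ (ε / 2) = (1 + K5) ^ (ε / 2) * X ^ (ε / 2) :=
        Real.mul_rpow (by linarith) hX0.le
      have h3 := hbig X hXX2
      rw [div_le_iff₀ hc2] at h3
      have e2 : X ^ ((7 : ℝ) / 20 - ε) * X ^ (ε / 2) * X ^ (ε / 2) = X ^ ((7 : ℝ) / 20) := by
        rw [← Real.rpow_add hX0, ← Real.rpow_add hX0]
        congr 1
        ring
      have h4 : 0 ≤ X ^ ((7 : ℝ) / 20 - ε) * X ^ (ε / 2) := by positivity
      calc X ^ ((7 : ℝ) / 20 - ε) * Dv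
          = X ^ ((7 : ℝ) / 20 - ε) * X ^ (ε / 2) * (Cd * (1 + K5) ^ (ε / 2)) := by
            rw [hDv, e1]; ring
        _ ≤ X ^ ((7 : ℝ) / 20 - ε) * X ^ (ε / 2) * (X ^ (ε / 2) * c2) :=
            mul_le_mul_of_nonneg_left h3 h4
        _ = c2 * (X ^ ((7 : ℝ) / 20 - ε) * X ^ (ε / 2) * X ^ (ε / 2)) := by ring
        _ = c2 * X ^ ((7 : ℝ) / 20) := by rw [e2]
    exact le_of_mul_le_mul_right (h2.trans h1) hDv0
  · intro d hd
    obtain ⟨x, hx, hxd⟩ := Finset.mem_image.1 hd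
    obtain ⟨_, g2, g3, g4, d', hd'1, hd'2⟩ := hG2 x hx
    have hdd : d = d' := by
      have h1 : ((d : ℕ) : ℤ) = d' := by
        rw [hd'1, ← hxd]
        exact Int.toNat_of_nonneg g2.le
      exact_mod_cast h1
    subst hdd
    have h5 : (d : ℝ) = (PZ A' B' 0 (1 + Q * x.1) (a' + Q * x.2) : ℝ) := by
      exact_mod_cast hd'1
    exact ⟨by rw [h5]; exact g3, by rw [h5]; exact g4, hd'2⟩

/-- all lengths -/
theorem main_one {A B : ℤ} (hΔ : 4 * A ^ 3 + 27 * B ^ 2 ≠ 0) {M : ℕ} (hM : 0 < M) {a : ℕ}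
    (ha : a.Coprime M) : ∃ C : ℝ, 0 < C ∧ ∀ ε : ℝ, 0 < ε → ∃ X0 : ℝ, 1 ≤ X0 ∧ ∀ X H : ℝ, X0 ≤ X →
      C * X ^ (17 / 20 : ℝ) ≤ H → H ≤ X → ∃ S : Finset ℕ,
        H * X ^ (-(1 / 2) - ε) ≤ (S.card : ℝ) ∧ ∀ d ∈ S, Squarefree d ∧ d ≡ a [MOD M] ∧
          X ≤ (d : ℝ) ∧ (d : ℝ) ≤ X + H ∧
          {p : ℚ × ℚ | p.2 ^ 2 = p.1 ^ 3 + A * (d : ℚ) ^ 2 * p.1 +
            B * (d : ℚ) ^ 3}.Infinite := by
  classical
  obtain ⟨C, hC, hb⟩ := base (A := A) (B := B) hΔ hM ha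
  refine ⟨4 * (2 * C), by positivity, fun ε₀ hε₀ => ?_⟩
  obtain ⟨ε, hε, hεle, hε5⟩ : ∃ ε : ℝ, 0 < ε ∧ ε ≤ ε₀ ∧ ε ≤ 1 / 5 :=
    ⟨min ε₀ (1 / 5), lt_min hε₀ (by norm_num), min_le_left _ _, min_le_right _ _⟩
  obtain ⟨X1, hX1, hb⟩ := hb (ε / 2) (by positivity)
  obtain ⟨X2, hX2, hbig⟩ := rpow_big (δ := ε / 2) (by positivity) (4 * (2 * C))
  refine ⟨max X1 X2, le_max_of_le_left hX1, fun X H hX hCH hHX => ?_⟩
  have hXX1 : X1 ≤ X := (le_max_left _ _).trans hX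
  have hXX2 : X2 ≤ X := (le_max_right _ _).trans hX
  have hX1' : 1 ≤ X := hX1.trans hXX1
  have hX0 : 0 < X := by linarith
  have hXp : 0 < X ^ ((17 : ℝ) / 20) := Real.rpow_pos_of_pos hX0 _
  -- the step
  set L : ℝ := 2 * C * X ^ ((17 : ℝ) / 20) with hL
  have hL0 : 0 < L := by rw [hL]; positivity
  have hLH : 4 * L ≤ H := by
    rw [hL]
    have : 4 * (2 * C * X ^ ((17 : ℝ) / 20)) = 4 * (2 * C) * X ^ ((17 : ℝ) / 20) := by ring
    rw [this]; exact hCH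
  have hH0' : 0 ≤ H := by linarith
  set J : ℕ := ⌊H / (2 * L)⌋₊ with hJ
  have hJ1 : (J : ℝ) ≤ H / (2 * L) := Nat.floor_le (div_nonneg hH0' (by positivity))
  have hJ2 : H / (2 * L) < J + 1 := Nat.lt_floor_add_one _
  have hJL : (J : ℝ) * (2 * L) ≤ H := by rwa [le_div_iff₀ (by positivity)] at hJ1
  have hJlow : H / (4 * L) ≤ J := by
    have h1 : 2 ≤ H / (2 * L) := by rw [le_div_iff₀ (by positivity)]; linarith
    have h2 : H / (4 * L) = H / (2 * L) / 2 := by field_simp; ring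
    rw [h2]; linarith
  -- the starting points
  set Y : ℕ → ℝ := fun j => X + j * (2 * L) with hY
  have hYX : ∀ j, X ≤ Y j := fun j => by
    rw [hY]; simp only
    have : (0 : ℝ) ≤ j * (2 * L) := by positivity
    linarith
  choose S hS1 hS2 using fun j : ℕ => hb (Y j) (hXX1.trans (hYX j))
  have hCY : ∀ j, j < J → C * (Y j) ^ ((17 : ℝ) / 20) ≤ L := by
    intro j hj
    have h1 : Y j ≤ 2 * X := by
      have h2 : (j : ℝ) * (2 * L) ≤ J * (2 * L) := by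
        apply mul_le_mul_of_nonneg_right _ (by positivity)
        exact_mod_cast hj.le
      rw [hY]; simp only
      linarith
    have h2 : (Y j) ^ ((17 : ℝ) / 20) ≤ (2 * X) ^ ((17 : ℝ) / 20) :=
      Real.rpow_le_rpow (hX0.le.trans (hYX j)) h1 (by norm_num)
    have h3 : (2 * X) ^ ((17 : ℝ) / 20) = 2 ^ ((17 : ℝ) / 20) * X ^ ((17 : ℝ) / 20) :=
      Real.mul_rpow (by norm_num) hX0.le
    have h4 : (2 : ℝ) ^ ((17 : ℝ) / 20) ≤ 2 := by
      have := Real.rpow_le_rpow_of_exponent_le (show (1 : ℝ) ≤ 2 by norm_num)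
        (show ((17 : ℝ) / 20) ≤ 1 by norm_num)
      rwa [Real.rpow_one] at this
    have h5 : (2 : ℝ) ^ ((17 : ℝ) / 20) * X ^ ((17 : ℝ) / 20) ≤ 2 * X ^ ((17 : ℝ) / 20) :=
      mul_le_mul_of_nonneg_right h4 hXp.le
    calc C * (Y j) ^ ((17 : ℝ) / 20) ≤ C * (2 * X ^ ((17 : ℝ) / 20)) :=
          mul_le_mul_of_nonneg_left (by linarith) hC.le
      _ = L := by rw [hL]; ring
  have hloc : ∀ j, j < J → ∀ d ∈ S j, Y j ≤ (d : ℝ) ∧ (d : ℝ) ≤ Y j + L := by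
    intro j hj d hd
    obtain ⟨g1, g2, _⟩ := hS2 j d hd
    exact ⟨g1, g2.trans (by linarith [hCY j hj])⟩
  refine ⟨(Finset.range J).biUnion S, ?_, ?_⟩
  · have hdisj : ∀ i ∈ Finset.range J, ∀ j ∈ Finset.range J, i ≠ j → Disjoint (S i) (S j) := by
      intro i hi j hj hij
      rw [Finset.disjoint_left]
      intro d hdi hdj
      obtain ⟨a1, a2⟩ := hloc i (Finset.mem_range.1 hi) d hdi
      obtain ⟨b1, b2⟩ := hloc j (Finset.mem_range.1 hj) d hdj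
      rw [hY] at a1 a2 b1 b2
      simp only at a1 a2 b1 b2
      rcases lt_or_gt_of_ne hij with h | h
      · have h1 : (i : ℝ) + 1 ≤ j := by exact_mod_cast h
        have h2 : ((i : ℝ) + 1) * (2 * L) ≤ j * (2 * L) :=
          mul_le_mul_of_nonneg_right h1 (by positivity)
        linarith
      · have h1 : (j : ℝ) + 1 ≤ i := by exact_mod_cast h
        have h2 : ((j : ℝ) + 1) * (2 * L) ≤ i * (2 * L) :=
          mul_le_mul_of_nonneg_right h1 (by positivity)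
        linarith
    rw [Finset.card_biUnion hdisj]
    push_cast
    have h1 : ∀ j ∈ Finset.range J, X ^ ((7 : ℝ) / 20 - ε / 2) ≤ ((S j).card : ℝ) := by
      intro j hj
      refine le_trans ?_ (hS1 j)
      exact Real.rpow_le_rpow hX0.le (hYX j) (by linarith)
    have h2 : (J : ℝ) * X ^ ((7 : ℝ) / 20 - ε / 2) ≤ ∑ j ∈ Finset.range J, ((S j).card : ℝ) := by
      have := Finset.card_nsmul_le_sum (Finset.range J) (fun j => ((S j).card : ℝ)) _ h1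
      rwa [Finset.card_range, nsmul_eq_mul] at this
    refine le_trans ?_ h2
    have h3 : X ^ (-(1 / 2) - ε₀) ≤ X ^ (-(1 / 2) - ε) :=
      Real.rpow_le_rpow_of_exponent_le hX1' (by linarith)
    have hH0 : 0 < H := by linarith
    have h4 : H / (4 * L) * X ^ ((7 : ℝ) / 20 - ε / 2) ≤ J * X ^ ((7 : ℝ) / 20 - ε / 2) :=
      mul_le_mul_of_nonneg_right hJlow (by positivity)
    refine le_trans ?_ h4
    refine le_trans (mul_le_mul_of_nonneg_left h3 hH0.le) ?_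
    have h5 : H / (4 * L) * X ^ ((7 : ℝ) / 20 - ε / 2) =
        H * (X ^ ((7 : ℝ) / 20 - ε / 2) / (4 * L)) := by ring
    rw [h5]
    apply mul_le_mul_of_nonneg_left _ hH0.le
    rw [le_div_iff₀ (by positivity)]
    have h6 : 4 * L = 4 * (2 * C) * X ^ ((17 : ℝ) / 20) := by rw [hL]; ring
    rw [h6]
    have h7 := hbig X hXX2
    have h8 : X ^ (-(1 / 2) - ε) * (X ^ (ε / 2) * X ^ ((17 : ℝ) / 20)) =
        X ^ ((7 : ℝ) / 20 - ε / 2) := by
      rw [← Real.rpow_add hX0, ← Real.rpow_add hX0]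
      congr 1
      ring
    rw [← h8]
    apply mul_le_mul_of_nonneg_left _ (by positivity)
    exact mul_le_mul_of_nonneg_right h7 hXp.le
  · intro d hd
    obtain ⟨j, hj, hdj⟩ := Finset.mem_biUnion.1 hd
    have hjJ := Finset.mem_range.1 hj
    obtain ⟨g1, g2⟩ := hloc j hjJ d hdj
    obtain ⟨_, _, g3, g4, g5⟩ := hS2 j d hdj
    refine ⟨g3, g4, (hYX j).trans g1, ?_, g5⟩
    refine g2.trans ?_
    have h1 : ((j : ℝ) + 1) * (2 * L) ≤ J * (2 * L) := by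
      apply mul_le_mul_of_nonneg_right _ (by positivity)
      exact_mod_cast hjJ
    rw [hY]; simp only
    linarith

end Pool.Agent.TH827.GF
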