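import Mathlib
import Pool.Agent.TH827.GF.Base

set_option autoImplicit false

/-!
# All classes prime to `M`, both signs (after TH861/TW/All)
-/

namespace Pool.Agent.TH827.GF

theorem twist_set {A B e : ℤ} (he : e = 1 ∨ e = -1) (d : ℕ) :
    {p : ℚ × ℚ | p.2 ^ 2 = p.1 ^ 3 + ((A * (e * d) ^ 2 : ℤ) : ℚ) * p.1 +
      ((B * (e * d) ^ 3 : ℤ) : ℚ)} =
    {p : ℚ × ℚ | p.2 ^ 2 = p.1 ^ 3 + A * (d : ℚ) ^ 2 * p.1 +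
      ((e * B : ℤ) : ℚ) * (d : ℚ) ^ 3} := by
  have he2 : e ^ 2 = 1 := by rcases he with rfl | rfl <;> norm_num
  have he3 : e ^ 3 = e := by rw [pow_succ, he2, one_mul]
  have c1 : ((A * (e * (d : ℤ)) ^ 2 : ℤ) : ℚ) = A * (d : ℚ) ^ 2 := by
    rw [mul_pow, he2, one_mul]; push_cast; ring
  have c2 : ((B * (e * (d : ℤ)) ^ 3 : ℤ) : ℚ) = ((e * B : ℤ) : ℚ) * (d : ℚ) ^ 3 := by
    rw [mul_pow, he3]; push_cast; ring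
  rw [c1, c2]

theorem main_all (A B : ℤ) (hΔ : 4 * A ^ 3 + 27 * B ^ 2 ≠ 0) (M : ℕ) (hM : 0 < M) :
    ∃ C : ℝ, 0 < C ∧ ∀ ε : ℝ, 0 < ε → ∃ X0 : ℝ, 1 ≤ X0 ∧ ∀ X H : ℝ, X0 ≤ X →
      C * X ^ (17 / 20 : ℝ) ≤ H → H ≤ X → ∀ a : ℕ, a.Coprime M → ∀ e ∈ ({1, -1} : Set ℤ),
        ∃ S : Finset ℕ, H * X ^ (-(1 / 2) - ε) ≤ (S.card : ℝ) ∧ ∀ d ∈ S,
          X ≤ (d : ℝ) ∧ (d : ℝ) ≤ X + H ∧ Squarefree d ∧ d ≡ a [MOD M] ∧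
          {p : ℚ × ℚ | p.2 ^ 2 = p.1 ^ 3 + ((A * (e * d) ^ 2 : ℤ) : ℚ) * p.1 +
            ((B * (e * d) ^ 3 : ℤ) : ℚ)}.Infinite := by
  classical
  have key : ∀ q : ℕ × ℤ, ∃ C : ℝ, 0 < C ∧ (q.1.Coprime M → q.2 = 1 ∨ q.2 = -1 →
      ∀ ε : ℝ, 0 < ε → ∃ X0 : ℝ, 1 ≤ X0 ∧ ∀ X H : ℝ, X0 ≤ X →
      C * X ^ (17 / 20 : ℝ) ≤ H → H ≤ X →
        ∃ S : Finset ℕ, H * X ^ (-(1 / 2) - ε) ≤ (S.card : ℝ) ∧ ∀ d ∈ S,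
          X ≤ (d : ℝ) ∧ (d : ℝ) ≤ X + H ∧ Squarefree d ∧ d ≡ q.1 [MOD M] ∧
          {p : ℚ × ℚ | p.2 ^ 2 = p.1 ^ 3 + ((A * (q.2 * d) ^ 2 : ℤ) : ℚ) * p.1 +
            ((B * (q.2 * d) ^ 3 : ℤ) : ℚ)}.Infinite) := by
    rintro ⟨a, e⟩
    by_cases h : a.Coprime M ∧ (e = 1 ∨ e = -1)
    · obtain ⟨ha, he⟩ := h
      have he2 : e ^ 2 = 1 := by rcases he with rfl | rfl <;> norm_num
      have hΔ' : 4 * A ^ 3 + 27 * (e * B) ^ 2 ≠ 0 := by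
        rw [mul_pow, he2, one_mul]; exact hΔ
      obtain ⟨C, hC, hm⟩ := main_one (A := A) (B := e * B) hΔ' hM ha
      refine ⟨C, hC, fun _ _ ε hε => ?_⟩
      obtain ⟨X0, hX0, hm⟩ := hm ε hε
      refine ⟨X0, hX0, fun X H hX h1 h2 => ?_⟩
      obtain ⟨S, hS, hS'⟩ := hm X H hX h1 h2
      refine ⟨S, hS, fun d hd => ?_⟩
      obtain ⟨g1, g2, g3, g4, g5⟩ := hS' d hd
      exact ⟨g3, g4, g1, g2, by rw [twist_set he]; exact g5⟩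
    · exact ⟨1, one_pos, fun h1 h2 => absurd ⟨h1, h2⟩ h⟩
  choose C hC hmain using key
  set F : Finset (ℕ × ℤ) := ((Finset.range M).filter fun a => a.Coprime M) ×ˢ {1, -1} with hF
  have hCle : ∀ q ∈ F, C q ≤ 1 + ∑ q ∈ F, C q := by
    intro q hq
    have := Finset.single_le_sum (fun q _ => (hC q).le) hq
    linarith
  refine ⟨1 + ∑ q ∈ F, C q, by
    have : 0 ≤ ∑ q ∈ F, C q := Finset.sum_nonneg fun q _ => (hC q).le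
    linarith, fun ε hε => ?_⟩
  have key2 : ∀ q : ℕ × ℤ, ∃ X0 : ℝ, 1 ≤ X0 ∧ (q.1.Coprime M → q.2 = 1 ∨ q.2 = -1 →
      ∀ X H : ℝ, X0 ≤ X → C q * X ^ (17 / 20 : ℝ) ≤ H → H ≤ X →
        ∃ S : Finset ℕ, H * X ^ (-(1 / 2) - ε) ≤ (S.card : ℝ) ∧ ∀ d ∈ S,
          X ≤ (d : ℝ) ∧ (d : ℝ) ≤ X + H ∧ Squarefree d ∧ d ≡ q.1 [MOD M] ∧
          {p : ℚ × ℚ | p.2 ^ 2 = p.1 ^ 3 + ((A * (q.2 * d) ^ 2 : ℤ) : ℚ) * p.1 +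
            ((B * (q.2 * d) ^ 3 : ℤ) : ℚ)}.Infinite) := by
    intro q
    by_cases h : q.1.Coprime M ∧ (q.2 = 1 ∨ q.2 = -1)
    · obtain ⟨X0, h1, h2⟩ := hmain q h.1 h.2 ε hε
      exact ⟨X0, h1, fun _ _ => h2⟩
    · exact ⟨1, le_refl 1, fun h1 h2 => absurd ⟨h1, h2⟩ h⟩
  choose X0 hX01 hX0 using key2
  refine ⟨1 + ∑ q ∈ F, X0 q, ?_, ?_⟩
  · have : 0 ≤ ∑ q ∈ F, X0 q := Finset.sum_nonneg fun q _ => by linarith [hX01 q]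
    linarith
  intro X H hX h1 h2 a ha e he
  have he' : e = 1 ∨ e = -1 := by simpa using he
  have hqF : (a % M, e) ∈ F := by
    rw [hF, Finset.mem_product, Finset.mem_filter, Finset.mem_range]
    refine ⟨⟨Nat.mod_lt _ hM, ?_⟩, by simpa using he⟩
    rw [Nat.Coprime, ← Nat.gcd_rec, Nat.gcd_comm]
    exact ha
  have hcop : (a % M).Coprime M := (Finset.mem_filter.1 (Finset.mem_product.1 hqF).1).2
  have hXle : X0 (a % M, e) ≤ X := by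
    refine le_trans ?_ hX
    have := Finset.single_le_sum (f := X0) (fun q _ => by linarith [hX01 q]) hqF
    linarith
  have hX1 : 1 ≤ X := (hX01 _).trans hXle
  have hXp : 0 ≤ X ^ (17 / 20 : ℝ) := Real.rpow_nonneg (by linarith) _
  have hCH : C (a % M, e) * X ^ (17 / 20 : ℝ) ≤ H :=
    (mul_le_mul_of_nonneg_right (hCle _ hqF) hXp).trans h1
  obtain ⟨S, hS, hS'⟩ := hX0 (a % M, e) hcop he' X H hXle hCH h2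
  refine ⟨S, hS, fun d hd => ?_⟩
  obtain ⟨g1, g2, g3, g4, g5⟩ := hS' d hd
  exact ⟨g1, g2, g3, g4.trans (Nat.mod_modEq a M), g5⟩

end Pool.Agent.TH827.GF
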